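import Pool.Agent.H59.L.S8.W558.S.Defs
import Pool.Agent.H59.L.S8.W558.Princ
import Pool.Agent.H59.L.S8.W558.Atlas

set_option autoImplicit false
set_option linter.unusedVariables false

universe u

open Polynomial AlgebraicGeometry CategoryTheory Pool.Agent.H920R2

namespace Pool.Agent.W558

/-- RANK: tangent spaces of smooth surfaces are two-dimensional. -/
def S_rank : Prop := ∀ (k E : Type u) [Field k] [Field E] [Algebra k E] [PerfectField k],
  Algebra.trdeg k E = 2 → ∀ A : Subalgebra k E, Sf A →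
  ∀ (κ : Type u) [Field κ] [Algebra k κ] (φ : A →ₐ[k] κ),
  ∃ (a b : A) (D1 D2 : TV φ), D1.D a = 1 ∧ D1.D b = 0 ∧ D2.D a = 0 ∧ D2.D b = 1 ∧
    ∀ D : TV φ, D.D a = 0 → D.D b = 0 → ∀ c, D.D c = 0

/-- PAR: parameters at closed points. -/
def S_par : Prop := ∀ (k E : Type u) [Field k] [Field E] [Algebra k E] [PerfectField k],
  Algebra.trdeg k E = 2 → ∀ A O : Subalgebra k E, Sf A → IsPt A O →
  ∃ u v g : E, u ∈ A ∧ v ∈ A ∧ g ∈ A ∧ g ≠ 0 ∧ g⁻¹ ∈ O ∧ Par O u v ∧ Coord (adj A g⁻¹) u v ∧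
    ∀ x ∈ adj A g⁻¹, NU O x → ∃ α ∈ adj A g⁻¹, ∃ β ∈ adj A g⁻¹, x = α * u + β * v

/-- CHAIN: dimension two. -/
def S_chain : Prop := ∀ (k E : Type u) [Field k] [Field E] [Algebra k E],
  Algebra.trdeg k E = 2 → ∀ A : Subalgebra k E, Sf A →
  ∀ p q : Ideal A, p.IsPrime → q.IsPrime → p ≠ ⊥ → p < q → q.IsMaximal

/-- FIN: finiteness of points on a curve where a function vanishes, and of curves where a function
vanishes. -/
def S_fin : Prop := ∀ (k E : Type u) [Field k] [Field E] [Algebra k E],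
  Algebra.trdeg k E = 2 → ∀ A : Subalgebra k E, Sf A →
  (∀ W, IsDv A W → ∀ f ∈ A, ¬ NU W f → {O | IsPt A O ∧ O ≤ W ∧ NU O f}.Finite) ∧
  (∀ f ∈ A, f ≠ 0 → {W | IsDv A W ∧ NU W f}.Finite) ∧
  (∀ (q : Ideal A) (hq : q.IsPrime), q ≠ ⊥ → ¬ q.IsMaximal → IsDv A (locAt A q hq)) ∧
  (∀ W W', IsDv A W → IsDv A W' → (∀ a ∈ A, NU W a → NU W' a) → W = W')

/-- WF: a curve has no infinite sequence of infinitely near singular points. -/
def S_wf : Prop := ∀ (k E : Type u) [Field k] [Field E] [Algebra k E] [PerfectField k],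
  Algebra.trdeg k E = 2 → ∀ A O W : Subalgebra k E, Sf A → IsPt A O → IsDv A W → O ≤ W →
  Acc (r1 W) O

/-- TERM: abstract termination. -/
def S_term.{a, b, c} : Prop := ∀ (σ : Type a) (α : Type b) (β : Type c) (le : σ → σ → Prop)
  (Bad : σ → Set α) (l : σ → α → β) (r : β → β → Prop) (P : σ → Prop),
  (∀ s, le s s) → (∀ s s' s'', le s s' → le s' s'' → le s s'') → WellFounded r →
  (∀ s, P s → (Bad s).Finite) →
  (∀ s, P s → ∀ a ∈ Bad s, ∃ s', le s s' ∧ P s' ∧ ∀ a' ∈ Bad s',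
    (a' ∈ Bad s ∧ a' ≠ a ∧ l s' a' = l s a') ∨ r (l s' a') (l s a)) →
  ∀ s, P s → ∃ s', le s s' ∧ P s' ∧ Bad s' = ∅

/-- ISO: refinement of the charts such that a point has good coordinates on its only chart. -/
def S_iso : Prop := ∀ (k E : Type u) [Field k] [Field E] [Algebra k E] [PerfectField k],
  Algebra.trdeg k E = 2 → ∀ (T I : Type) [Finite T] [Finite I]
  (M : LM (⊥ : Subalgebra k E) ⊤ T I), (∀ t, Sf (M.A t)) → ∀ O, (∃ t, IsPt (M.A t) O) →
  ∃ (T' : Type) (_ : Finite T') (M' : LM (⊥ : Subalgebra k E) ⊤ T' I) (π : T' → T) (t0 : T')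
    (u v : E), Refn M M' π ∧ Iso M' O t0 u v

/-- BL: the blowup of a point with good coordinates. -/
def S_bl : Prop := ∀ (k E : Type u) [Field k] [Field E] [Algebra k E] (T I : Type) [Finite T]
  [Finite I] (M : LM (⊥ : Subalgebra k E) ⊤ T I) (O : Subalgebra k E) (t0 : T) (u v : E),
  (∀ t, Sf (M.A t)) → Iso M O t0 u v →
  ∃ M' : LM (⊥ : Subalgebra k E) ⊤ (T × Bool) (Option I), Blow M O M' Prod.fst

/-- BLOW: the blowup of a point. -/
def S_blow : Prop := ∀ (k E : Type u) [Field k] [Field E] [Algebra k E] [PerfectField k],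
  Algebra.trdeg k E = 2 → ∀ (T I : Type) [Finite T] [Finite I]
  (M : LM (⊥ : Subalgebra k E) ⊤ T I), (∀ t, Sf (M.A t)) → ∀ O, (∃ t, IsPt (M.A t) O) →
  ∃ (T' : Type) (_ : Finite T') (M' : LM (⊥ : Subalgebra k E) ⊤ T' (Option I)) (π : T' → T),
    Blow M O M' π

/-- PH1: after finitely many blowups of points the curve `W` is regular. -/
def S_ph1 : Prop := ∀ (k E : Type u) [Field k] [Field E] [Algebra k E] [PerfectField k],
  Algebra.trdeg k E = 2 → ∀ (s : SM k E) (W : Subalgebra k E), s.Wd W →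
  (∀ t i, s.M.A t ≤ W → ¬ NU W (s.M.x t i)) →
  ∃ s' : SM k E, s.Le s' ∧ (∀ t i, s'.M.A t ≤ W → ¬ NU W (s'.M.x t i)) ∧
    ∀ t O, IsPt (s'.M.A t) O → O ≤ W → Good1 O W

/-- PH2: after finitely many blowups of points the curve `W` is transversal to the boundary. -/
def S_ph2 : Prop := ∀ (k E : Type u) [Field k] [Field E] [Algebra k E] [PerfectField k],
  Algebra.trdeg k E = 2 → ∀ (s : SM k E) (W : Subalgebra k E), s.Wd W →
  (∀ t i, s.M.A t ≤ W → ¬ NU W (s.M.x t i)) →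
  (∀ t O, IsPt (s.M.A t) O → O ≤ W → Good1 O W) →
  ∃ s' : SM k E, s.Le s' ∧ (∀ t i, s'.M.A t ≤ W → ¬ NU W (s'.M.x t i)) ∧
    ∀ t O, IsPt (s'.M.A t) O → O ≤ W → ∃ z, NU W z ∧
      ((∃ i, Par O z (s'.M.x t i) ∧ ∀ j, j ≠ i → ¬ NU O (s'.M.x t j)) ∨
        ((∃ w, ¬ NU W w ∧ Par O z w) ∧ ∀ j, ¬ NU O (s'.M.x t j)))

/-- ADD: a curve which is transversal to the boundary can be added to the boundary. -/
def S_add : Prop := ∀ (k E : Type u) [Field k] [Field E] [Algebra k E] [PerfectField k],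
  Algebra.trdeg k E = 2 → ∀ (s : SM k E) (W : Subalgebra k E), s.Wd W →
  (∀ t i, s.M.A t ≤ W → ¬ NU W (s.M.x t i)) →
  (∀ t O, IsPt (s.M.A t) O → O ≤ W → ∃ z, NU W z ∧
      ((∃ i, Par O z (s.M.x t i) ∧ ∀ j, j ≠ i → ¬ NU O (s.M.x t j)) ∨
        ((∃ w, ¬ NU W w ∧ Par O z w) ∧ ∀ j, ¬ NU O (s.M.x t j)))) →
  ∃ s' : SM k E, s.Le s' ∧ (s'.Dv W → s'.Bdy W)

/-- FN: functions without zeros and poles outside of the boundary are locally monomials. -/
def S_fn : Prop := ∀ (k E : Type u) [Field k] [Field E] [Algebra k E] [PerfectField k],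
  Algebra.trdeg k E = 2 → ∀ (s : SM k E) (G : Type) (g : G → E), (∀ b, g b ≠ 0) →
  (∀ W, s.Dv W → s.Bdy W ∨ ∀ b, g b ∈ W ∧ (g b)⁻¹ ∈ W) →
  ∃ Γ : G → s.I → ℤ, Fn s.M g Γ

/-- LOG: log resolution on surfaces. -/
def S_log : Prop := ∀ (k E : Type u) [Field k] [Field E] [Algebra k E] [PerfectField k],
  Algebra.trdeg k E = 2 → ∀ (s : SM k E) (G : Type) [Finite G] (g : G → E), (∀ b, g b ≠ 0) →
  ∃ (s' : SM k E) (Γ : G → s'.I → ℤ), Fn s'.M g Γ

/-- Smooth projective surfaces with function field `E`, given by the homogeneous coordinates. -/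
def HasModel (k E : Type u) [Field k] [Field E] [Algebra k E] : Prop :=
  ∃ (N : ℕ) (H : Fin (N + 1) → E), (∀ i, H i ≠ 0) ∧
    ∀ i, Sf (Algebra.adjoin k (Set.range fun j => H j / H i))

/-- INIT. -/
def S_init : Prop := ∀ (k E : Type u) [Field k] [Field E] [Algebra k E], HasModel k E →
  Nonempty (SM k E)

/-- TOR: the product of a model with a compactified torus. -/
def S_tor : Prop := ∀ (k E K : Type u) [Field k] [Field E] [Field K] [Algebra k E] [Algebra k K]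
  [Algebra E K] [IsScalarTower k E K] (T I G : Type) [Finite T] [Fintype I]
  (M : LM (⊥ : Subalgebra k E) ⊤ T I) (h : G → E) (Γ : G → I → ℤ), Fn M h Γ →
  ∀ (r : ℕ) (z : Fin r → K), AlgebraicIndependent E z →
  ∃ (T' I' : Type) (_ : Finite T') (_ : Fintype I') (M' : LM (⊥ : Subalgebra k K) ⊤ T' I')
    (Γ' : (G ⊕ Fin r) → I' → ℤ),
    Fn M' (Sum.elim (fun b => algebraMap E K (h b)) z) Γ'

/-- RESTR: restriction of a model to the part over an affine variety `Spec R`, where `R` is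
generated by functions which are locally monomials. -/
def S_restr : Prop := ∀ (k K : Type u) [Field k] [Field K] [Algebra k K] (T I G : Type)
  [Finite T] [Fintype I] [Finite G] (M : LM (⊥ : Subalgebra k K) ⊤ T I) (g : G → K)
  (Γ : G → I → ℤ), Fn M g Γ → ∀ (S : Set G) (R : Subalgebra k K),
  R = Algebra.adjoin k (g '' S) → (∀ x : K, ∃ a ∈ R, ∃ b ∈ R, b ≠ 0 ∧ x = a * b⁻¹) →
  ∃ (T' I' : Type) (_ : Finite T') (_ : Fintype I') (M' : LM R R T' I') (Γ' : G → I' → ℤ),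
    Fn M' g Γ' ∧ ∀ D, LD M D → LD M' D

section graded

variable {k A : Type u} [Field k] [CommRing A] [IsDomain A] [Algebra k A] {r : ℕ}
  (𝒜 : (Fin r → ℤ) → Submodule k A) [GradedAlgebra 𝒜]

/-- The field of homogeneous fractions of degree zero (the field of rational invariants of the
torus). -/
def homFrac : IntermediateField k (FractionRing A) where
  carrier := {x | ∃ d, ∃ a ∈ 𝒜 d, ∃ b ∈ 𝒜 d, b ≠ 0 ∧
    x = algebraMap A (FractionRing A) a / algebraMap A (FractionRing A) b}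
  mul_mem' := by
    rintro x y ⟨d, a, ha, b, hb, hb0, rfl⟩ ⟨d', a', ha', b', hb', hb0', rfl⟩
    refine ⟨d + d', a * a', SetLike.mul_mem_graded ha ha', b * b', SetLike.mul_mem_graded hb hb',
      mul_ne_zero hb0 hb0', ?_⟩
    rw [map_mul, map_mul, div_mul_div_comm]
  add_mem' := by
    rintro x y ⟨d, a, ha, b, hb, hb0, rfl⟩ ⟨d', a', ha', b', hb', hb0', rfl⟩
    refine ⟨d + d', a * b' + b * a', add_mem (SetLike.mul_mem_graded ha hb')
      (SetLike.mul_mem_graded hb ha'), b * b', SetLike.mul_mem_graded hb hb',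
      mul_ne_zero hb0 hb0', ?_⟩
    have h1 : algebraMap A (FractionRing A) b ≠ 0 :=
      (FaithfulSMul.algebraMap_eq_zero_iff A (FractionRing A)).not.2 hb0
    have h2 : algebraMap A (FractionRing A) b' ≠ 0 :=
      (FaithfulSMul.algebraMap_eq_zero_iff A (FractionRing A)).not.2 hb0'
    rw [div_add_div _ _ h1 h2, map_mul, map_add, map_mul, map_mul]
  algebraMap_mem' := by
    intro c
    refine ⟨0, algebraMap k A c, SetLike.algebraMap_mem_graded 𝒜 c, 1,
      SetLike.one_mem_graded 𝒜, one_ne_zero, ?_⟩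
    rw [map_one, div_one]
    rfl
  inv_mem' := by
    rintro x ⟨d, a, ha, b, hb, hb0, rfl⟩
    by_cases h0 : a = 0
    · refine ⟨0, 0, Submodule.zero_mem _, 1, SetLike.one_mem_graded 𝒜, one_ne_zero, ?_⟩
      simp [h0]
    · exact ⟨d, b, hb, a, ha, h0, by rw [inv_div]⟩

end graded

/-- GR: structure of graded domains. -/
def S_gr : Prop := ∀ (k A : Type u) [Field k] [CommRing A] [IsDomain A] [Algebra k A]
  [Algebra.FiniteType k A] (r : ℕ) (𝒜 : (Fin r → ℤ) → Submodule k A) [GradedAlgebra 𝒜],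
  ∃ (n : ℕ) (z : Fin n → FractionRing A) (m : ℕ) (h : Fin m → homFrac 𝒜)
    (a : Fin m → Fin n → ℤ), AlgebraicIndependent (homFrac 𝒜) z ∧ (∀ b, h b ≠ 0) ∧
    (IsScalarTower.toAlgHom k A (FractionRing A)).range =
      Algebra.adjoin k (Set.range fun b => (h b : FractionRing A) * ∏ j, z j ^ a b j)

end Pool.Agent.W558
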