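import Pool.Agent.H59.L.S8.W558.S.Stms

set_option autoImplicit false
set_option linter.unusedVariables false

universe u

open Polynomial

namespace Pool.Agent.W558

section

variable {k E : Type u} [Field k] [Field E] [Algebra k E] {T T' I : Type}

lemma LM.sf_of_le (M : LM (⊥ : Subalgebra k E) ⊤ T I) {I' : Type}
    (M' : LM (⊥ : Subalgebra k E) ⊤ T' I') {t : T} {t' : T'} (h : M.A t ≤ M'.A t')
    (hsf : Sf (M.A t)) : Sf (M'.A t') where
  sm := M'.sm t'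
  fr := fun x => by
    obtain ⟨a, ha, b, hb, h1⟩ := hsf.fr x
    exact ⟨a, h ha, b, h hb, h1⟩

theorem Refn.blow {M : LM (⊥ : Subalgebra k E) ⊤ T I} {M1 : LM (⊥ : Subalgebra k E) ⊤ T' I}
    {π : T' → T} (h : Refn M M1 π) {O : Subalgebra k E} {T'' : Type}
    {M2 : LM (⊥ : Subalgebra k E) ⊤ T'' (Option I)} {π' : T'' → T'} (h' : Blow M1 O M2 π')
    {t0 : T'} (ht0 : IsPt (M1.A t0) O) :
    Blow M O M2 (π ∘ π') where
  le := fun t' => (h.le _).trans (h'.le t')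
  thr := by
    rintro i ⟨t, ht, h1⟩ t'
    rw [h'.thr i ⟨t0, ht0, ?_⟩ t', h.x]
    · rfl
    · rw [h.x, ← M.nu_iff ht.le ((h.le t0).trans ht0.le) i]
      exact h1
  nthr := by
    rintro i ⟨t, ht, h1⟩ t'
    rw [h'.nthr i ⟨t0, ht0, ?_⟩ t', h.x]
    · rfl
    · rw [h.x, ← M.nu_iff ht.le ((h.le t0).trans ht0.le) i]
      exact h1
  pt := by
    intro t' O' hO'
    rcases h'.pt t' O' hO' with ⟨h1, h2, h3⟩ | ⟨h1, h2⟩
    · exact Or.inl ⟨h1, h.pt _ _ h2, h3⟩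
    · exact Or.inr ⟨h.pt _ _ h1, h2⟩
  dv := by
    intro t' W hW
    rcases h'.dv t' W hW with h1 | h1
    · exact Or.inl (h.dv _ _ h1)
    · exact Or.inr h1
  ex := by
    intro t' W hW hle
    exact h'.ex t' W (hW.up (h.le _) ((h'.le t').trans hle)) hle
  irr := by
    intro W hW
    exact h'.irr W (h.irr W hW)

end

/-- One blowup, bundled. -/
theorem exists_step (hblow : S_blow.{u}) {k E : Type u} [Field k] [Field E] [Algebra k E]
    [PerfectField k] (h2 : Algebra.trdeg k E = 2) (s : SM k E) {O : Subalgebra k E}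
    (hO : ∃ t, IsPt (s.M.A t) O) :
    ∃ (T' : Type) (hT' : Finite T') (M' : LM (⊥ : Subalgebra k E) ⊤ T' (Option s.I))
      (π : T' → s.T) (W' : Option s.I → Subalgebra k E) (hsf : ∀ t, Sf (M'.A t))
      (hirr : Irr M' W'), Blow s.M O M' π ∧
      s.Le ⟨T', Option s.I, hT', inferInstance, M', W', hsf, hirr⟩ := by
  obtain ⟨T', hT', M', π, h3⟩ := hblow k E h2 s.T s.I s.M s.sf O hO
  obtain ⟨W', hW'⟩ := h3.irr s.W s.irr
  refine ⟨T', hT', M', π, W', fun t => s.M.sf_of_le M' (h3.le t) (s.sf _), hW', h3, ?_⟩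
  refine ⟨fun t' => ⟨π t', h3.le t'⟩, ?_, ?_⟩
  · rintro W ⟨t', hW⟩
    rcases h3.dv t' W hW with h4 | h4
    · exact Or.inl ⟨_, h4⟩
    · exact Or.inr ⟨t', none, hW, h4⟩
  · rintro W ⟨t', hW⟩ ⟨t, i, h4, h5⟩
    have h6 : s.M.A (π t') ≤ W := (h3.le t').trans hW.le
    rw [s.M.nu_iff h4.le h6 i] at h5
    obtain ⟨t0, ht0⟩ := hO
    by_cases h7 : NU O (s.M.x t0 i)
    · have h8 := h3.thr i ⟨t0, ht0, h7⟩ t'
      rw [← h8, NU_mul_iff (hW.le (M'.xA _ _)) (hW.le (M'.xA _ _))] at h5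
      rcases h5 with h5 | h5
      · exact ⟨t', some i, hW, h5⟩
      · exact ⟨t', none, hW, h5⟩
    · have h8 := h3.nthr i ⟨t0, ht0, h7⟩ t'
      rw [← h8] at h5
      exact ⟨t', some i, hW, h5⟩

/-- The condition that `W` is not contained in the boundary is preserved by blowups. -/
lemma Blow.not_NU {k E : Type u} [Field k] [Field E] [Algebra k E] {T T' I : Type}
    {M : LM (⊥ : Subalgebra k E) ⊤ T I} {O : Subalgebra k E}
    {M' : LM (⊥ : Subalgebra k E) ⊤ T' (Option I)} {π : T' → T} (h : Blow M O M' π)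
    (hO : ∃ t, IsPt (M.A t) O) {W : Subalgebra k E} (hW : ∀ t, M.A t ≤ W → IsDv (M.A t) W)
    (hx : ∀ t i, M.A t ≤ W → ¬ NU W (M.x t i)) (t' : T') (i : Option I) (ht' : M'.A t' ≤ W) :
    ¬ NU W (M'.x t' i) := by
  have h1 : M.A (π t') ≤ W := (h.le t').trans ht'
  cases i with
  | none => exact h.ex t' W (hW _ h1) ht'
  | some i =>
    intro h3
    obtain ⟨t0, ht0⟩ := hO
    by_cases h7 : NU O (M.x t0 i)
    · have h8 := h.thr i ⟨t0, ht0, h7⟩ t'
      apply hx (π t') i h1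
      rw [← h8]
      exact h3.mul_right (ht' (M'.xA _ _))
    · have h8 := h.nthr i ⟨t0, ht0, h7⟩ t'
      apply hx (π t') i h1
      rw [← h8]
      exact h3

theorem blow_main (hiso : S_iso.{u}) (hbl : S_bl.{u}) : S_blow.{u} := by
  intro k E _ _ _ _ h2 T I _ _ M hsf O hO
  obtain ⟨T', hT', M', π, t0, u, v, h3, h4⟩ := hiso k E h2 T I M hsf O hO
  obtain ⟨M'', h5⟩ := hbl k E T' I M' O t0 u v
    (fun t => M.sf_of_le M' (h3.le t) (hsf _)) h4
  exact ⟨T' × Bool, inferInstance, M'', _, h3.blow h5 h4.pt⟩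

end Pool.Agent.W558
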