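import Pool.Agent.H59.L.S8.W558.S.Base1

set_option autoImplicit false
set_option linter.unusedVariables false

universe u

open Polynomial

namespace Pool.Agent.W558

theorem log_main (hfin : S_fin.{u}) (hph1 : S_ph1.{u}) (hph2 : S_ph2.{u}) (hadd : S_add.{u})
    (hfn : S_fn.{u}) : S_log.{u} := by
  intro k E _ _ _ _ h2 s G _ g hg
  have step : ∀ (s : SM k E) (W : Subalgebra k E), s.Wd W →
      ∃ s', s.Le s' ∧ (s'.Dv W → s'.Bdy W) := by
    intro s W hW
    by_cases hx : ∀ t i, s.M.A t ≤ W → ¬ NU W (s.M.x t i)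
    · obtain ⟨s1, h1, h1x, h1g⟩ := hph1 k E h2 s W hW hx
      have hW1 := hW.mono h1
      obtain ⟨s2, h3, h3x, h3g⟩ := hph2 k E h2 s1 W hW1 h1x h1g
      have hW2 := hW1.mono h3
      obtain ⟨s3, h4, h5⟩ := hadd k E h2 s2 W hW2 h3x h3g
      exact ⟨s3, (h1.trans h3).trans h4, h5⟩
    · push Not at hx
      obtain ⟨t, i, h1, h2⟩ := hx
      exact ⟨s, .refl s, fun _ => ⟨t, i, hW t h1, h2⟩⟩
  have fin : ∀ F : Set (Subalgebra k E), F.Finite → ∀ s : SM k E, (∀ W ∈ F, s.Wd W) →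
      ∃ s', s.Le s' ∧ ∀ W ∈ F, s'.Dv W → s'.Bdy W := by
    intro F hF
    induction F, hF using Set.Finite.induction_on with
    | empty =>
      intro s _
      exact ⟨s, .refl s, fun W hW => absurd hW (Set.notMem_empty W)⟩
    | @insert W F hWF hF ih =>
      intro s hs
      obtain ⟨s1, h1, h3⟩ := step s W (hs W (Set.mem_insert _ _))
      obtain ⟨s2, h4, h5⟩ := ih s1 (fun W' hW' => (hs W' (Set.mem_insert_of_mem _ hW')).mono h1)
      refine ⟨s2, h1.trans h4, ?_⟩
      rintro W' (rfl | hW') hdv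
      · rcases h4.dv _ hdv with h6 | h6
        · exact h4.bd _ hdv (h3 h6)
        · exact h6
      · exact h5 W' hW' hdv
  choose a ha c hc hc0 hac using fun (t : s.T) (b : G) => (s.sf t).fr (g b)
  let F : Set (Subalgebra k E) := {W | s.Dv W ∧ ∃ b, ¬ (g b ∈ W ∧ (g b)⁻¹ ∈ W)}
  have hF : F.Finite := by
    have h3 : F ⊆ ⋃ t : s.T, ⋃ b : G, {W | IsDv (s.M.A t) W ∧ NU W (a t b * c t b)} := by
      rintro W ⟨⟨t, ht⟩, b, hb⟩
      refine Set.mem_iUnion.2 ⟨t, Set.mem_iUnion.2 ⟨b, ht, ?_⟩⟩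
      by_contra hn
      rw [not_NU_iff (ht.le ((s.M.A t).mul_mem (ha t b) (hc t b)))] at hn
      apply hb
      obtain ⟨h4, h5⟩ := hn
      have ha0 : a t b ≠ 0 := left_ne_zero_of_mul h4
      have hc0 := hc0 t b
      have h6 : (a t b)⁻¹ ∈ W := by
        have := W.mul_mem h5 (ht.le (hc t b))
        have e : (a t b * c t b)⁻¹ * c t b = (a t b)⁻¹ := by field_simp
        rwa [e] at this
      have h7 : (c t b)⁻¹ ∈ W := by
        have := W.mul_mem h5 (ht.le (ha t b))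
        have e : (a t b * c t b)⁻¹ * a t b = (c t b)⁻¹ := by field_simp
        rwa [e] at this
      rw [hac t b]
      refine ⟨W.mul_mem (ht.le (ha t b)) h7, ?_⟩
      rw [mul_inv, inv_inv]
      exact W.mul_mem h6 (ht.le (hc t b))
    refine Set.Finite.subset (Set.finite_iUnion fun t => Set.finite_iUnion fun b => ?_) h3
    refine (hfin k E h2 _ (s.sf t)).2.1 _ ((s.M.A t).mul_mem (ha t b) (hc t b)) ?_
    refine mul_ne_zero ?_ (hc0 t b)
    intro h0
    apply hg b
    rw [hac t b, h0, zero_mul]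
  obtain ⟨s', h3, h4⟩ := fin F hF s (fun W hW => hW.1.wd)
  obtain ⟨Γ, hΓ⟩ := hfn k E h2 s' G g hg (by
    intro W hW
    rcases h3.dv W hW with h5 | h5
    · by_cases h6 : W ∈ F
      · exact Or.inl (h4 W h6 hW)
      · right
        intro b
        by_contra hb
        exact h6 ⟨h5, b, hb⟩
    · exact Or.inl h5)
  exact ⟨s', Γ, hΓ⟩

end Pool.Agent.W558
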