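import Pool.Agent.H59.L.S8.W558.S.Bl
import Pool.Agent.H59.L.S8.W558.S.BlowP
import Pool.Agent.H59.L.S8.W558.S.Ph1
import Pool.Agent.H59.L.S8.W558.S.Log
import Pool.Agent.H59.L.S8.W558.S.FinalP
import Pool.Agent.H59.L.S8.W418.S.Rank
import Pool.Agent.H59.L.S8.W418.S.Par
import Pool.Agent.H59.L.S8.W973.CHAIN
import Pool.Agent.H59.L.S8.W973.FIN
import Pool.Agent.H59.L.S8.W973.TERM
import Pool.Agent.H59.L.S8.W466.RS.Iso
import Pool.Agent.H59.L.S8.W544.Surf.Add
import Pool.Agent.H59.L.S8.W440.RS.Fn
import Pool.Agent.H59.L.S8.W22.W558Init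
import Pool.Agent.H59.L.S8.W498.Tor.Tor
import Pool.Agent.H59.L.S8.W22.W558Restr
import Pool.Agent.H59.L.S8.W466.RS.Gr
import Pool.Agent.H59.L.S8.W285.WF.Main
import Pool.Agent.H59.L.S8.W363.RS.PH2

set_option autoImplicit false

universe u

open AlgebraicGeometry CategoryTheory Pool.Agent.H920R2

namespace Pool.Agent.W558

theorem all_par : S_par.{u} := Pool.Agent.W418.SP.main Pool.Agent.W418.SR.main
theorem all_wf : S_wf.{u} := Pool.Agent.W285.WF.main
theorem all_chain : S_chain.{u} := Pool.Agent.W973.CHAIN.main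
theorem all_fin : S_fin.{u} := Pool.Agent.W973.FIN.main all_chain
theorem all_iso : S_iso.{u} := Pool.Agent.W466.RS.Iso.main all_par
theorem all_blow : S_blow.{u} := blow_main all_iso bl_main
theorem all_ph1 : S_ph1.{u} := ph1_main all_par all_blow all_fin all_wf Pool.Agent.W973.TERM.main
theorem all_ph2 : S_ph2.{u} :=
  Pool.Agent.W363.RS.main all_par all_blow all_fin Pool.Agent.W973.TERM.main
theorem all_add : S_add.{u} := Pool.Agent.W544.SAdd.main all_par all_fin all_chain
theorem all_fn : S_fn.{u} := Pool.Agent.W440.RS.main all_par all_fin all_chain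
/-- Log resolution on smooth projective surfaces over perfect fields. -/
theorem all_log : S_log.{u} := log_main all_fin all_ph1 all_ph2 all_add all_fn
theorem all_init : S_init.{u} := Pool.Agent.W22.W558Init.main
theorem all_tor : S_tor.{u} := Pool.Agent.W498.Tor.main
theorem all_restr : S_restr.{u} := Pool.Agent.W22.W558Restr.main
theorem all_gr : S_gr.{u} := Pool.Agent.W466.RS.Gr.main

/-- Resolution of affine varieties with torus action of complexity two. -/
theorem hasResolution_graded (k A : Type u) [Field k] [PerfectField k] [CommRing A]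
    [IsDomain A] [Algebra k A] [Algebra.FiniteType k A] (r : ℕ)
    (𝒜 : (Fin r → ℤ) → Submodule k A) [GradedAlgebra 𝒜]
    (h2 : Algebra.trdeg k (homFrac 𝒜) = 2) (hM : HasModel k (homFrac 𝒜)) :
    HasResolution (X := Spec (CommRingCat.of A))
      (Spec.map (CommRingCat.ofHom (algebraMap k A))) :=
  final_main all_log all_init all_tor all_restr all_gr k A r 𝒜 h2 hM

end Pool.Agent.W558
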