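import Pool.Agent.H59.L.S8.W558.S.BlowP

set_option autoImplicit false
set_option linter.unusedVariables false

universe u

open Polynomial

namespace Pool.Agent.W558

section

variable {k E : Type u} [Field k] [Field E] [Algebra k E]

/-- An element which is a non-unit along the curve is a non-unit at the points of the curve. -/
lemma NU.of_le {O W : Subalgebra k E} (h : O ≤ W) {x : E} (hx : x ∈ O) (h1 : NU W x) : NU O x :=
  ⟨hx, fun y hy h2 => h1.2 y (h hy) h2⟩

/-- Elements of the square of the maximal ideal. -/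
def Sq (O : Subalgebra k E) (z : E) : Prop := ∃ u v α β γ : E, NU O u ∧ NU O v ∧
  α ∈ O ∧ β ∈ O ∧ γ ∈ O ∧ z = α * (u * u) + β * (u * v) + γ * (v * v)

lemma Par.symm {O : Subalgebra k E} {u v : E} (h : Par O u v) : Par O v u where
  pu := h.pv
  pv := h.pu
  u0 := h.v0
  v0 := h.u0
  gen := fun x hx => by
    obtain ⟨α, hα, β, hβ, h1⟩ := h.gen x hx
    exact ⟨β, hβ, α, hα, by rw [h1]; ring⟩
  reg := fun b hb c hc h1 => by
    obtain ⟨d, hd, h2⟩ := h.reg c hc b hb h1.symm
    refine ⟨d, hd, ?_⟩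
    have := h.u0
    rw [h2] at h1
    have h3 : u * (v * d) = u * c := by linear_combination h1
    exact (mul_left_cancel₀ this h3).symm

/-- Replace the first parameter. -/
lemma Par.change {O : Subalgebra k E} {u v α β : E} (h : Par O u v)
    (hadd : ∀ x y, NU O x → NU O y → NU O (x + y)) (hα : α ∈ O) (hα0 : α ≠ 0)
    (hαi : α⁻¹ ∈ O) (hβ : β ∈ O) (h0 : α * u + β * v ≠ 0) : Par O (α * u + β * v) v where
  pu := hadd _ _ (h.pu.mul_left hα) (h.pv.mul_left hβ)
  pv := h.pv
  u0 := h0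
  v0 := h.v0
  gen := fun x hx => by
    obtain ⟨a, ha, b, hb, h1⟩ := h.gen x hx
    refine ⟨a * α⁻¹, O.mul_mem ha hαi, b - a * α⁻¹ * β,
      O.sub_mem hb (O.mul_mem (O.mul_mem ha hαi) hβ), ?_⟩
    rw [h1]
    field_simp
    ring
  reg := fun b hb c hc h1 => by
    -- (α u + β v) b = v c, so u (α b) = v (c - β b)
    obtain ⟨d, hd, h2⟩ := h.reg (α * b) (O.mul_mem hα hb) (c - β * b)
      (O.sub_mem hc (O.mul_mem hβ hb)) (by linear_combination h1)
    -- c - β b = u d, so α b = v d
    have h3 : u * (α * b) = u * (v * d) := by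
      have : v * (c - β * b) = u * (v * d) := by rw [h2]; ring
      rw [← this]; linear_combination h1
    have h4 : α * b = v * d := mul_left_cancel₀ h.u0 h3
    refine ⟨α⁻¹ * d, O.mul_mem hαi hd, ?_⟩
    have h5 : b = α⁻¹ * (v * d) := by rw [← h4]; field_simp
    have h6 : c = u * d + β * b := by rw [← h2]; ring
    rw [h6, h5]
    field_simp

/-- The dichotomy: the curve is regular at the point, or its elements are in the square of the
maximal ideal. -/
lemma sq_of_not_good {O W : Subalgebra k E} {u v : E} (h : Par O u v)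
    (hadd : ∀ x y, NU O x → NU O y → NU O (x + y)) (hW : ∀ x y, NU W x → NU W y → NU W (x + y))
    (hle : O ≤ W) (hw : ∃ w, NU O w ∧ ¬ NU W w) (hg : ¬ Good1 O W) {z : E} (hz : z ∈ O)
    (hzW : NU W z) : ∃ α ∈ O, ∃ β ∈ O, ∃ γ ∈ O,
      z = α * (u * u) + β * (u * v) + γ * (v * v) := by
  obtain ⟨w, hw1, hw2⟩ := hw
  by_cases hz0 : z = 0
  · exact ⟨0, O.zero_mem, 0, O.zero_mem, 0, O.zero_mem, by rw [hz0]; ring⟩
  obtain ⟨α, hα, β, hβ, h1⟩ := h.gen z (hzW.of_le hle hz)
  have key : ∀ u v α β : E, Par O u v → α ∈ O → β ∈ O → z = α * u + β * v → NU O α := by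
    intro u v α β h hα hβ h1
    by_contra hn
    rw [not_NU_iff hα] at hn
    have h2 := h.change hadd hα hn.1 hn.2 hβ (by rw [← h1]; exact hz0)
    rw [← h1] at h2
    apply hg
    refine ⟨z, v, hzW, ?_, h2⟩
    intro hv
    obtain ⟨a, ha, b, hb, h3⟩ := h2.gen w hw1
    apply hw2
    rw [h3]
    exact hW _ _ (hzW.mul_left (hle ha)) (hv.mul_left (hle hb))
  have hα' := key u v α β h hα hβ h1
  have hβ' := key v u β α h.symm hβ hα (by rw [h1]; ring)
  obtain ⟨a1, ha1, b1, hb1, e1⟩ := h.gen α hα'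
  obtain ⟨a2, ha2, b2, hb2, e2⟩ := h.gen β hβ'
  refine ⟨a1, ha1, b1 + a2, O.add_mem hb1 ha2, b2, hb2, ?_⟩
  rw [h1, e1, e2]; ring

/-- The prime ideal of a divisor. -/
def IsDv.pr {A W : Subalgebra k E} (h : IsDv A W) : Ideal A where
  carrier := {a | NU W a}
  add_mem' := fun {a b} ha hb => h.loc _ _ ha hb
  zero_mem' := NU.zero
  smul_mem' := fun c a ha => by
    change NU W (c * a)
    exact NU.mul_left ha (h.le c.2)

lemma IsDv.mem_pr {A W : Subalgebra k E} (h : IsDv A W) {a : A} : a ∈ h.pr ↔ NU W a := Iff.rfl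

lemma IsDv.isPrime {A W : Subalgebra k E} (h : IsDv A W) : h.pr.IsPrime where
  ne_top' := by
    intro h1
    rw [Ideal.eq_top_iff_one] at h1
    exact not_NU_one h1
  mem_or_mem' := by
    intro a b hab
    rw [h.mem_pr] at hab
    exact (NU_mul_iff (h.le a.2) (h.le b.2)).1 hab

lemma Sf.isFractionRing {A : Subalgebra k E} (hA : Sf A) : IsFractionRing A E := by
  refine IsFractionRing.of_field A E ?_
  intro z
  obtain ⟨a, ha, b, hb, -, h1⟩ := hA.fr z
  refine ⟨⟨a, ha⟩, ⟨b, hb⟩, ?_⟩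
  rw [h1, div_eq_mul_inv]
  rfl

/-- There is a derivation which is transversal to the divisor at its generic point. -/
theorem exists_base [PerfectField k] {A W : Subalgebra k E} (hA : Sf A) (hW : IsDv A W) :
    ∃ (D : Derivation k E E) (y : E), y ∈ A ∧ (∀ a ∈ A, D a ∈ A) ∧ NU W y ∧ ¬ NU W (D y) := by
  have hsm := hA.sm
  have hft : Algebra.FiniteType k A := inferInstance
  have hN : IsNoetherianRing A := Algebra.FiniteType.isNoetherianRing k A
  have hl := isLocalRing_of_loc hW.loc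
  let L := IsLocalRing.ResidueField W
  let φ : A →ₐ[k] L := (IsScalarTower.toAlgHom k W L).comp (Subalgebra.inclusion hW.le)
  have hφ : ∀ a : A, φ a = 0 ↔ NU W a := fun a => by
    change IsLocalRing.residue W ⟨a, hW.le a.2⟩ = 0 ↔ _
    rw [residue_eq_zero_NU]
  have hker : RingHom.ker φ = hW.pr := by
    ext a
    rw [RingHom.mem_ker, hφ]
    rfl
  obtain ⟨f, hf, hf2⟩ : ∃ f : A, φ f = 0 ∧ ∀ s, φ s ≠ 0 → s * f ∉ RingHom.ker φ ^ 2 ⊔ ⊥ := by
    by_contra hcon
    push Not at hcon
    rw [sup_bot_eq, hker] at hcon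
    have hp := hW.isPrime
    let B := Localization.AtPrime hW.pr
    have hm : IsLocalRing.maximalIdeal B = hW.pr.map (algebraMap A B) :=
      (IsLocalization.AtPrime.map_eq_maximalIdeal hW.pr B).symm
    have hNB : IsNoetherianRing B := IsLocalization.isNoetherianRing hW.pr.primeCompl B hN
    have h1 : IsLocalRing.maximalIdeal B ≤
        IsLocalRing.maximalIdeal B • IsLocalRing.maximalIdeal B := by
      conv_lhs => rw [hm]
      rw [Ideal.map_le_iff_le_comap]
      intro f hf
      obtain ⟨s, hs, h2⟩ := hcon f ((hφ f).2 hf)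
      rw [Ideal.mem_comap]
      have h3 : algebraMap A B (s * f) ∈ IsLocalRing.maximalIdeal B • IsLocalRing.maximalIdeal B := by
        rw [smul_eq_mul, ← pow_two, hm, ← Ideal.map_pow]
        exact Ideal.mem_map_of_mem _ h2
      rw [map_mul] at h3
      have hu : IsUnit (algebraMap A B s) := IsLocalization.map_units B
        (⟨s, fun h4 => hs ((hφ s).2 h4)⟩ : hW.pr.primeCompl)
      exact (Ideal.unit_mul_mem_iff_mem _ hu).1 h3
    have h2 : IsLocalRing.maximalIdeal B = ⊥ :=
      Submodule.eq_bot_of_le_smul_of_le_jacobson_bot _ _ (IsNoetherian.noetherian _) h1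
        (IsLocalRing.maximalIdeal_le_jacobson _)
    obtain ⟨y, hy, hy0, h3⟩ := hW.nt
    have h4 : algebraMap A B ⟨y, hy⟩ ∈ IsLocalRing.maximalIdeal B := by
      rw [hm]
      exact Ideal.mem_map_of_mem _ h3
    rw [h2, Ideal.mem_bot] at h4
    have h5 := IsLocalization.injective B (Ideal.primeCompl_le_nonZeroDivisors hW.pr)
    rw [← map_zero (algebraMap A B)] at h4
    exact hy0 (congrArg Subtype.val (h5 h4))
  obtain ⟨D0, hD0, -⟩ := exists_TV φ ⊥ bot_le hf hf2
  obtain ⟨δ, hδ⟩ := exists_der φ D0 hD0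
  have hfr : IsFractionRing A E := hA.isFractionRing
  obtain ⟨D, hD⟩ := exists_der_frac (K := E) δ
  refine ⟨D, f, f.2, ?_, (hφ f).1 hf, ?_⟩
  · intro a ha
    have := hD ⟨a, ha⟩
    change D a = _ at this
    rw [this]
    exact (δ ⟨a, ha⟩).2
  · have := hD f
    change D f = _ at this
    rw [this]
    exact fun h => hδ ((hφ _).2 h)

end

end Pool.Agent.W558
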