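import Pool.Agent.H59.L.S8.W558.S.BlIrr
import Pool.Agent.H59.L.S8.W558.S.Stms

set_option autoImplicit false
set_option linter.unusedVariables false
set_option linter.unusedSimpArgs false
set_option linter.unusedSectionVars false

universe u

open Polynomial

namespace Pool.Agent.W558

section bl

variable {k E : Type u} [Field k] [Field E] [Algebra k E] {T I : Type}
  {M : LM (⊥ : Subalgebra k E) ⊤ T I} {O : Subalgebra k E} {t0 : T} {u v : E}

open Classical in
/-- The extension by `1` to the charts not containing the point. -/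
noncomputable def gx (t0 : T) (u : E) (t : T) : E := if t = t0 then u else 1

lemma gx_self : gx t0 u t0 = u := by unfold gx; rw [if_pos rfl]

lemma gx_ne {t : T} (h : t ≠ t0) : gx t0 u t = 1 := by unfold gx; rw [if_neg h]

lemma trans_of_coord {A : Subalgebra k E} {u v : E} (h : Coord A u v) (hu : u ∈ A) (hv : v ∈ A) :
    Trans A (⟨u, hu⟩ : A) ⟨v, hv⟩ where
  y1 := fun κ _ _ φ _ => by
    obtain ⟨D1, D2, h1, h2, h3, h4⟩ := h hu hv κ φ
    exact ⟨D2, by rw [h4]; exact one_ne_zero⟩
  xy := fun κ _ _ φ _ _ => by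
    obtain ⟨D1, D2, h1, h2, h3, h4⟩ := h hu hv κ φ
    exact ⟨D1, h1, h2⟩

lemma trans_of_coord' {A : Subalgebra k E} {u v : E} (h : Coord A u v) (hu : u ∈ A)
    (hv : v ∈ A) : Trans A (⟨v, hv⟩ : A) ⟨u, hu⟩ where
  y1 := fun κ _ _ φ _ => by
    obtain ⟨D1, D2, h1, h2, h3, h4⟩ := h hu hv κ φ
    exact ⟨D1, by rw [h1]; exact one_ne_zero⟩
  xy := fun κ _ _ φ _ _ => by
    obtain ⟨D1, D2, h1, h2, h3, h4⟩ := h hu hv κ φ
    exact ⟨D2, h4, h3⟩

lemma trans_of_one {A : Subalgebra k E} {x y : A} (hx : x = 1) (hy : y = 1) : Trans A x y where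
  y1 := fun κ _ _ φ h => by
    rw [hy, map_one] at h
    exact absurd h one_ne_zero
  xy := fun κ _ _ φ _ h => by
    rw [hy, map_one] at h
    exact absurd h one_ne_zero

variable (h : Iso M O t0 u v)

include h

lemma Iso.nu_ratio {t' : T} (ht' : t' ≠ t0) : NU O (M.H t' / M.H t0) := by
  by_contra hn
  have h1 : M.H t' / M.H t0 ∈ O := h.pt.le (M.rt t0 t')
  rw [not_NU_iff h1] at hn
  apply ht'
  apply h.uniq
  intro f hf
  obtain ⟨n, hn'⟩ := M.gl t0 t' f hf
  have e : f = ((M.H t' / M.H t0)⁻¹) ^ n * ((M.H t' / M.H t0) ^ n * f) := by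
    rw [← mul_assoc, ← mul_pow, inv_mul_cancel₀ hn.1, one_pow, one_mul]
  rw [e]
  exact O.mul_mem (O.pow_mem hn.2 n) (h.pt.le hn')

lemma Iso.blData : BlData M (gx t0 u) (gx t0 v) (fun i => NU O (M.x t0 i)) where
  uA := fun t => by
    by_cases ht : t = t0
    · subst ht; rw [gx_self]; exact h.uA
    · rw [gx_ne ht]; exact (M.A t).one_mem
  vA := fun t => by
    by_cases ht : t = t0
    · subst ht; rw [gx_self]; exact h.vA
    · rw [gx_ne ht]; exact (M.A t).one_mem
  u0 := fun t => by
    by_cases ht : t = t0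
    · subst ht; rw [gx_self]; exact h.par.u0
    · rw [gx_ne ht]; exact one_ne_zero
  v0 := fun t => by
    by_cases ht : t = t0
    · subst ht; rw [gx_self]; exact h.par.v0
    · rw [gx_ne ht]; exact one_ne_zero
  tr := fun t => by
    by_cases ht : t = t0
    · subst ht
      have := trans_of_coord h.coord h.uA h.vA
      convert this using 2
      · exact gx_self
      · exact gx_self
    · refine trans_of_one (Subtype.ext ?_) (Subtype.ext ?_)
      · exact gx_ne ht
      · exact gx_ne ht
  tr' := fun t => by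
    by_cases ht : t = t0
    · subst ht
      have := trans_of_coord' h.coord h.uA h.vA
      convert this using 2
      · exact gx_self
      · exact gx_self
    · refine trans_of_one (Subtype.ext ?_) (Subtype.ext ?_)
      · exact gx_ne ht
      · exact gx_ne ht
  cu := fun t t' => by
    by_cases ht : t = t0
    · subst ht
      by_cases ht' : t' = t
      · subst ht'
        refine ⟨0, ?_⟩
        rw [pow_zero, one_mul]
        exact Idl.left
      · refine ⟨1, ?_⟩
        rw [gx_ne ht', mul_one, pow_one, gx_self, gx_self]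
        exact h.gen _ (M.rt t t') (h.nu_ratio ht')
    · have h1 : gx t0 u t' ∈ M.A t' := by
        by_cases ht : t' = t0
        · subst ht; rw [gx_self]; exact h.uA
        · rw [gx_ne ht]; exact (M.A t').one_mem
      obtain ⟨n, hn⟩ := M.gl t t' _ h1
      refine ⟨n, _, hn, 0, (M.A t).zero_mem, ?_⟩
      rw [gx_ne ht]; ring
  cv := fun t t' => by
    by_cases ht : t = t0
    · subst ht
      by_cases ht' : t' = t
      · subst ht'
        refine ⟨0, ?_⟩
        rw [pow_zero, one_mul]
        exact Idl.right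
      · refine ⟨1, ?_⟩
        rw [gx_ne ht', mul_one, pow_one, gx_self, gx_self]
        exact h.gen _ (M.rt t t') (h.nu_ratio ht')
    · have h1 : gx t0 v t' ∈ M.A t' := by
        by_cases ht : t' = t0
        · subst ht; rw [gx_self]; exact h.vA
        · rw [gx_ne ht]; exact (M.A t').one_mem
      obtain ⟨n, hn⟩ := M.gl t t' _ h1
      refine ⟨n, _, hn, 0, (M.A t).zero_mem, ?_⟩
      rw [gx_ne ht]; ring
  th := fun i hi t => by
    by_cases ht : t = t0
    · subst ht
      rw [gx_self, gx_self]
      exact h.gen _ (M.xA _ _) hi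
    · refine ⟨_, M.xA t i, 0, (M.A t).zero_mem, ?_⟩
      rw [gx_ne ht]; ring
  nth := fun i hi t κ _ _ φ h1 h2 h3 => by
    by_cases ht : t = t0
    · subst ht
      have h4 := (h.bd i).resolve_left hi
      have h5 : φ (⟨M.x t i, M.xA t i⟩ * ⟨(M.x t i)⁻¹, h4⟩) = 0 := by rw [map_mul, h3, zero_mul]
      have h6 : (⟨M.x t i, M.xA t i⟩ * ⟨(M.x t i)⁻¹, h4⟩ : M.A t) = 1 :=
        Subtype.ext (mul_inv_cancel₀ (M.x0 t i))
      rw [h6, map_one] at h5
      exact one_ne_zero h5
    · have h4 : (⟨gx t0 u t, by rw [gx_ne ht]; exact (M.A t).one_mem⟩ : M.A t) = 1 :=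
        Subtype.ext (gx_ne ht)
      rw [h4, map_one] at h1
      exact one_ne_zero h1

omit h in
lemma mem_adj_pow {A : Subalgebra k E} {a b : E} (ha : a ∈ A) (hb : b ∈ A) (hb0 : b ≠ 0) {f : E}
    (hf : f ∈ adj A (a / b)) : ∃ n : ℕ, f * b ^ n ∈ A := by
  refine adj_induction A (a / b) (p := fun f => ∃ n : ℕ, f * b ^ n ∈ A) ?_ ?_ ?_ f hf
  · intro c hc
    exact ⟨0, by rwa [pow_zero, mul_one]⟩
  · rintro c d ⟨n, hn⟩ ⟨m, hm⟩
    refine ⟨n + m, ?_⟩
    have e : (c + d) * b ^ (n + m) = c * b ^ n * b ^ m + d * b ^ m * b ^ n := by ring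
    rw [e]
    exact A.add_mem (A.mul_mem hn (A.pow_mem hb m)) (A.mul_mem hm (A.pow_mem hb n))
  · rintro c ⟨n, hn⟩
    refine ⟨n + 1, ?_⟩
    have e : c * (a / b) * b ^ (n + 1) = c * b ^ n * a := by
      rw [pow_succ]
      field_simp
    rw [e]
    exact A.mul_mem hn ha

end bl

theorem bl_main : S_bl.{u} := by
  classical
  intro k E _ _ _ T I _ _ M O t0 u v hsf h
  have hD := h.blData
  obtain ⟨M', hA, hx⟩ := hD.exists_blow
  have hge : ∀ b, ge (gx t0 u) (gx t0 v) (t0, b) = if b then v else u := by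
    intro b
    simp only [ge, gx_self]
  have hgn : ∀ b, gn (gx t0 u) (gx t0 v) (t0, b) = if b then u else v := by
    intro b
    simp only [gn, gx_self]
  have hge1 : ∀ t b, t ≠ t0 → ge (gx t0 u) (gx t0 v) (t, b) = 1 := by
    intro t b ht
    simp only [ge, gx_ne ht, ite_self]
  have hgn1 : ∀ t b, t ≠ t0 → gn (gx t0 u) (gx t0 v) (t, b) = 1 := by
    intro t b ht
    simp only [gn, gx_ne ht, ite_self]
  have hNUe : ∀ b, NU O (ge (gx t0 u) (gx t0 v) (t0, b)) := by
    intro b
    rw [hge]
    split_ifs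
    · exact h.par.pv
    · exact h.par.pu
  have hNUn : ∀ b, NU O (gn (gx t0 u) (gx t0 v) (t0, b)) := by
    intro b
    rw [hgn]
    split_ifs
    · exact h.par.pu
    · exact h.par.pv
  have hnone : ∀ p, M'.x p none = ge (gx t0 u) (gx t0 v) p := by
    intro p
    rw [hx]
    rfl
  have hle : ∀ p, M.A p.1 ≤ M'.A p := by
    intro p
    rw [hA]
    exact le_adj _ _
  have hpow : ∀ p, ∀ f ∈ M'.A p, ∃ n : ℕ, f * ge (gx t0 u) (gx t0 v) p ^ n ∈ M.A p.1 := by
    intro p f hf
    rw [hA] at hf
    exact mem_adj_pow (hD.gnA p) (hD.geA p) (hD.ge0 p) hf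
  have hdivA : ∀ p y, Idl (M.A p.1) (gx t0 u p.1) (gx t0 v p.1) y →
      y / ge (gx t0 u) (gx t0 v) p ∈ M'.A p := by
    intro p y hy
    rw [hA]
    exact div_mem_of_idl (hD.ge0 p) (hD.idl_iff p hy)
  have hdiv0 : ∀ b y, y ∈ M.A t0 → NU O y →
      y / ge (gx t0 u) (gx t0 v) (t0, b) ∈ M'.A (t0, b) := by
    intro b y hy hNU
    apply hdivA
    change Idl (M.A t0) (gx t0 u t0) (gx t0 v t0) y
    rw [gx_self, gx_self]
    exact h.gen y hy hNU
  refine ⟨M', { le := hle, thr := ?_, nthr := ?_, pt := ?_, dv := ?_, ex := ?_, irr := ?_ }⟩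
  · rintro i ⟨t, ht, hi⟩ p
    have ht0 := h.uniq t ht.le
    subst ht0
    rw [hx]
    simp only [px, if_pos hi]
    have := hD.ge0 p
    field_simp
  · rintro i ⟨t, ht, hi⟩ p
    have ht0 := h.uniq t ht.le
    subst ht0
    rw [hx]
    simp only [px, if_neg hi]
  · rintro ⟨t, b⟩ O' hO'
    have heA : ge (gx t0 u) (gx t0 v) (t, b) ∈ M.A t := hD.geA (t, b)
    have heO' : ge (gx t0 u) (gx t0 v) (t, b) ∈ O' := hO'.le (hle (t, b) heA)
    rw [hnone]
    by_cases hN : NU O' (ge (gx t0 u) (gx t0 v) (t, b))
    · right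
      by_cases ht : t = t0
      · subst ht
        refine ⟨h.pt, ?_⟩
        have h1 : ∀ a ∈ M.A t, NU O a → NU O' a := by
          intro a ha hNU
          have h2 := hO'.le (hdiv0 b a ha hNU)
          have h3 := hN.mul_right h2
          have := hD.ge0 (t, b)
          rwa [mul_div_cancel₀ _ this] at h3
        have h2 := h.pt.le_of_mx ((hle (t, b)).trans hO'.le) hO'.loc h1
        refine ⟨hD.ge0 _, hNUe b, h2.1, h2.2, ?_, hO'.loc, ?_⟩
        · intro x hx
          obtain ⟨α, hα, β, hβ, rfl⟩ := h.par.gen x hx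
          have hu' := hO'.le (hdiv0 b u h.uA h.par.pu)
          have hv' := hO'.le (hdiv0 b v h.vA h.par.pv)
          have e : (α * u + β * v) * (ge (gx t u) (gx t v) (t, b))⁻¹ =
              α * (u / ge (gx t u) (gx t v) (t, b)) + β * (v / ge (gx t u) (gx t v) (t, b)) := by
            ring
          rw [e]
          exact O'.add_mem (O'.mul_mem (h2.1 hα) hu') (O'.mul_mem (h2.1 hβ) hv')
        · have h3 : M'.A (t, b) ≤ BB O (ge (gx t u) (gx t v) (t, b)) := by
            rw [hA]
            refine adj_le ?_ ?_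
            · intro a ha
              exact Algebra.subset_adjoin (Or.inl (h.pt.le ha))
            · apply Algebra.subset_adjoin
              right
              exact ⟨_, hNUn b, by rw [div_eq_mul_inv]⟩
          intro x hx
          obtain ⟨a, ha, c, hc, hc0, hci, h4⟩ := hO'.frac x hx
          exact ⟨a, h3 ha, c, h3 hc, hc0, hci, h4⟩
      · rw [hge1 t b ht] at hN
        exact absurd hN not_NU_one
    · left
      refine ⟨hN, ?_, ?_⟩
      · rw [not_NU_iff heO'] at hN
        exact hO'.down (hle (t, b)) heA hN.1 hN.2 (hpow (t, b))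
      · rintro rfl
        have ht : t = t0 := h.uniq t ((hle (t, b)).trans hO'.le)
        subst ht
        exact hN (hNUe b)
  · rintro ⟨t, b⟩ W hW
    rw [hnone]
    have heA : ge (gx t0 u) (gx t0 v) (t, b) ∈ M.A t := hD.geA (t, b)
    have heW : ge (gx t0 u) (gx t0 v) (t, b) ∈ W := hW.le (hle (t, b) heA)
    by_cases hN : NU W (ge (gx t0 u) (gx t0 v) (t, b))
    · exact Or.inr hN
    · left
      rw [not_NU_iff heW] at hN
      exact hW.down (hle (t, b)) heA hN.1 hN.2 (hpow (t, b))
  · rintro ⟨t, b⟩ W hW hleW hN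
    rw [hnone] at hN
    by_cases ht : t = t0
    · subst ht
      obtain ⟨a, ha, h1⟩ := hW.tr
      obtain ⟨P, hP, h2⟩ := h.pt.alg a (h.pt.le ha)
      apply h1 P hP
      have h3 : aeval a P ∈ M.A t := by
        have := Algebra.adjoin_le (S := M.A t) (Set.singleton_subset_iff.2 ha)
        exact this (aeval_mem_adjoin_singleton k a)
      have h4 := hN.mul_right (hleW (hdiv0 b _ h3 h2))
      have := hD.ge0 (t, b)
      rwa [mul_div_cancel₀ _ this] at h4
    · rw [hge1 t b ht] at hN
      exact not_NU_one hN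
  · intro W hirr
    have hsm := M.sm t0
    obtain ⟨W0, hW1, hW2⟩ := exists_exc h.uA h.vA h.par.v0 (trans_of_coord h.coord h.uA h.vA)
      h.pt h.par.pu h.par.pv h.gen h.par.u0 (trans_of_coord' h.coord h.uA h.vA)
    refine ⟨fun o => o.elim W0 W, ?_⟩
    rintro ⟨t, b⟩ (_ | i)
    · by_cases ht : t = t0
      · subst ht
        right
        change IsDv (M'.A (t, b)) W0 ∧ NU W0 (M'.x (t, b) none) ∧ ∀ a ∈ M'.A (t, b), NU W0 a →
          ∃ c ∈ M'.A (t, b), a = M'.x (t, b) none * c
        rw [hnone, hA, hge, hgn]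
        cases b
        · exact hW2
        · exact hW1
      · left
        rw [hnone, hge1 t b ht, inv_one]
        exact (M'.A (t, b)).one_mem
    · change (M'.x (t, b) (some i))⁻¹ ∈ M'.A (t, b) ∨ (IsDv (M'.A (t, b)) (W i) ∧
        NU (W i) (M'.x (t, b) (some i)) ∧ ∀ a ∈ M'.A (t, b), NU (W i) a →
          ∃ c ∈ M'.A (t, b), a = M'.x (t, b) (some i) * c)
      have he0 := hD.ge0 (t, b)
      have heA : ge (gx t0 u) (gx t0 v) (t, b) ∈ M.A t := hD.geA (t, b)
      have hx' : M'.x (t, b) (some i) = if NU O (M.x t0 i) then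
          M.x t i / ge (gx t0 u) (gx t0 v) (t, b) else M.x t i := by
        rw [hx]
        rfl
      -- units
      have hunit : (M.x t i)⁻¹ ∈ M.A t → (M'.x (t, b) (some i))⁻¹ ∈ M'.A (t, b) := by
        intro h1
        rw [hx']
        split_ifs with hi
        · by_cases ht : t = t0
          · subst ht
            exact absurd (h.pt.le h1) (hi.inv_not_mem (M.x0 _ _))
          · rw [hge1 t b ht, div_one]
            exact hle (t, b) h1
        · exact hle (t, b) h1
      rcases hirr t i with h1 | ⟨h1, h2, h3⟩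
      · exact Or.inl (hunit h1)
      · by_cases hN : NU (W i) (ge (gx t0 u) (gx t0 v) (t, b))
        · left
          obtain ⟨c, hc, h4⟩ := h3 _ heA hN
          by_cases hi : NU O (M.x t0 i)
          · rw [hx', if_pos hi]
            have h5 := M.x0 t i
            have hc0 : c ≠ 0 := by
              rintro rfl
              rw [mul_zero] at h4
              exact he0 h4
            have e : (M.x t i / ge (gx t0 u) (gx t0 v) (t, b))⁻¹ = c := by
              rw [h4]
              field_simp
            rw [e]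
            exact hle (t, b) hc
          · by_cases ht : t = t0
            · subst ht
              exact hunit ((h.bd i).resolve_left hi)
            · rw [hge1 t b ht] at hN
              exact absurd hN not_NU_one
        · right
          have heW := h1.le heA
          have hN' := hN
          rw [not_NU_iff heW] at hN'
          have hle' : M'.A (t, b) ≤ W i := by
            rw [hA]
            refine adj_le h1.le ?_
            rw [div_eq_mul_inv]
            exact (W i).mul_mem (h1.le (hD.gnA (t, b))) hN'.2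
          have hNx : NU (W i) (M'.x (t, b) (some i)) := by
            rw [hx']
            split_ifs
            · rw [div_eq_mul_inv]
              exact h2.mul_right hN'.2
            · exact h2
          refine ⟨h1.up (hle (t, b)) hle', hNx, ?_⟩
          have hxx : ∃ c ∈ M'.A (t, b), M.x t i = M'.x (t, b) (some i) * c := by
            rw [hx']
            split_ifs
            · exact ⟨_, hle (t, b) heA, by field_simp⟩
            · exact ⟨1, (M'.A (t, b)).one_mem, (mul_one _).symm⟩
          obtain ⟨c0, hc0, hxx⟩ := hxx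
          have hsm' := M'.sm (t, b)
          have hS := M'.snc (t, b)
          -- the exceptional divisor is not a zero divisor modulo the strict transform
          have hnz : ∀ c ∈ M'.A (t, b), (∃ d ∈ M'.A (t, b), M'.x (t, b) none * c =
              M'.x (t, b) (some i) * d) → ∃ d ∈ M'.A (t, b), c = M'.x (t, b) (some i) * d := by
            rintro c hc ⟨d, hd, h5⟩
            obtain ⟨d', hd'⟩ := dvd_of_dvd_mul (⟨_, M'.xA (t, b) none⟩ : M'.A (t, b))
              ⟨_, M'.xA (t, b) (some i)⟩ (by
                intro κ _ _ φ hφ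
                obtain ⟨D, hD1, -⟩ := hS κ φ (some i) _ hφ
                exact ⟨D, by rw [hD1]; exact one_ne_zero⟩) (by
                intro κ _ _ φ hφ hφ'
                obtain ⟨D, hD1, hD2⟩ := hS κ φ none _ hφ'
                exact ⟨D, by rw [hD1]; exact one_ne_zero,
                  hD2 (some i) _ (Option.some_ne_none i) hφ⟩) ⟨c, hc⟩
                ⟨⟨d, hd⟩, Subtype.ext h5⟩
            exact ⟨d', d'.2, congrArg Subtype.val hd'⟩
          intro a ha haW
          obtain ⟨n, hn⟩ := hpow (t, b) a ha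
          obtain ⟨c, hc, h4⟩ := h3 _ hn (haW.mul_right ((W i).pow_mem heW n))
          have h5 : ∃ d ∈ M'.A (t, b), a * ge (gx t0 u) (gx t0 v) (t, b) ^ n =
              M'.x (t, b) (some i) * d :=
            ⟨c0 * c, (M'.A (t, b)).mul_mem hc0 (hle (t, b) hc), by rw [h4, hxx]; ring⟩
          clear hn h4
          induction n with
          | zero =>
            rwa [pow_zero, mul_one] at h5
          | succ n ih =>
            apply ih
            obtain ⟨d, hd, h6⟩ := h5
            refine hnz _ ((M'.A (t, b)).mul_mem ha ((M'.A (t, b)).pow_mem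
              (hle (t, b) heA) n)) ⟨d, hd, ?_⟩
            rw [hnone, ← h6]
            ring

end Pool.Agent.W558
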