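import Pool.Agent.H59.L.S8.W558.S.BlModel
import Pool.Agent.H59.L.S8.W558.S.Defs

set_option autoImplicit false
set_option linter.unusedVariables false
set_option linter.unusedSimpArgs false
set_option linter.unusedSectionVars false

universe u

open Polynomial

namespace Pool.Agent.W558

section loc

variable {k E : Type u} [Field k] [Field E] [Algebra k E] {A : Subalgebra k E} {q : Ideal A}
  {hq : q.IsPrime}

lemma locAt_loc : ∀ x y, NU (locAt A q hq) x → NU (locAt A q hq) y →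
    NU (locAt A q hq) (x + y) := by
  have hNU : ∀ x, NU (locAt A q hq) x ↔ ∃ a b : A, a ∈ q ∧ b ∉ q ∧ x * b = a := by
    intro x
    constructor
    · intro h
      obtain ⟨a, b, hb, h1⟩ := h.1
      refine ⟨a, b, ?_, hb, h1⟩
      rw [← NU_locAt (hq := hq), ← h1]
      exact h.mul_right (le_locAt b.2)
    · rintro ⟨a, b, ha, hb, h1⟩
      have h2 : x = a * (b : E)⁻¹ := by
        have := coe_ne_zero_of_notMem hb
        rw [← h1]; field_simp
      rw [h2]
      exact (NU_locAt.2 ha).mul_right (inv_mem_locAt hb)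
  intro x y hx hy
  obtain ⟨a, b, ha, hb, h1⟩ := (hNU x).1 hx
  obtain ⟨a', b', ha', hb', h2⟩ := (hNU y).1 hy
  refine (hNU _).2 ⟨a * b' + a' * b, b * b', ?_, fun h => (hq.mem_or_mem h).elim hb hb', ?_⟩
  · exact q.add_mem (q.mul_mem_right _ ha) (q.mul_mem_right _ ha')
  · push_cast
    rw [← h1, ← h2]; ring

lemma locAt_frac : ∀ x ∈ locAt A q hq, ∃ a ∈ A, ∃ b ∈ A, b ≠ 0 ∧ b⁻¹ ∈ locAt A q hq ∧
    x = a * b⁻¹ := by
  rintro x ⟨a, b, hb, h1⟩
  have hb0 := coe_ne_zero_of_notMem hb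
  refine ⟨a, a.2, b, b.2, hb0, inv_mem_locAt hb, ?_⟩
  rw [← h1]; field_simp

end loc

section exc

variable {k E : Type u} [Field k] [Field E] [Algebra k E] {A : Subalgebra k E}
  [Algebra.Smooth k A] {u v : E} (hu : u ∈ A) (hv : v ∈ A) (hv0 : v ≠ 0)
  (ht : Trans A (⟨u, hu⟩ : A) ⟨v, hv⟩)

include ht hv0 in
/-- Polynomials in `u / v` divisible by `v`. -/
lemma dvd_iff_coeff (P : (A)[X]) : (∃ b ∈ adj A (u / v), evA A (u / v) P = v * b) ↔
    ∀ j, Idl A u v (P.coeff j) := by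
  constructor
  · rintro ⟨b, hb, h1⟩
    obtain ⟨Q, rfl⟩ := hb
    change evA A (u / v) P = v * evA A (u / v) Q at h1
    have h2 : evA' A ((⟨u, hu⟩ : A) / (⟨v, hv⟩ : A) : E) (P - C ⟨v, hv⟩ * Q) = 0 := by
      apply Subtype.ext
      rw [coe_evA', map_sub, map_mul, evA_C]
      change evA A (u / v) P - v * evA A (u / v) Q = 0
      rw [h1, sub_self]
    have h3 := ker_evA'' (x := ⟨u, hu⟩) (y := ⟨v, hv⟩) hv0 ht h2
    obtain ⟨R, hR⟩ := Ideal.mem_span_singleton.1 h3
    intro j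
    have h4 : P = C ⟨v, hv⟩ * Q + (C ⟨v, hv⟩ * X - C ⟨u, hu⟩) * R := by
      rw [← hR]; ring
    have h5 : P.coeff j = ⟨v, hv⟩ * Q.coeff j + (⟨v, hv⟩ * (X * R).coeff j -
        ⟨u, hu⟩ * R.coeff j) := by
      conv_lhs => rw [h4]
      rw [coeff_add, coeff_C_mul, sub_mul, coeff_sub, mul_assoc, coeff_C_mul, coeff_C_mul]
    refine ⟨-(R.coeff j : E), A.neg_mem (R.coeff j).2, (Q.coeff j : E) + ((X * R).coeff j : E),
      A.add_mem (Q.coeff j).2 ((X * R).coeff j).2, ?_⟩
    rw [h5]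
    push_cast
    ring
  · intro h
    choose α hα β hβ h1 using h
    have h2 : evA A (u / v) P = ∑ i ∈ Finset.range (P.natDegree + 1),
        (P.coeff i : E) * (u / v) ^ i := by
      change Polynomial.aeval _ P = _
      rw [Polynomial.aeval_eq_sum_range]
      rfl
    refine ⟨∑ i ∈ Finset.range (P.natDegree + 1), (α i * (u / v) + β i) * (u / v) ^ i, ?_, ?_⟩
    · refine (adj A (u / v)).sum_mem fun i _ => ?_
      refine (adj A (u / v)).mul_mem ?_ ((adj A (u / v)).pow_mem (self_mem_adj _ _) i)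
      exact (adj A (u / v)).add_mem ((adj A (u / v)).mul_mem (le_adj _ _ (hα i))
        (self_mem_adj _ _)) (le_adj _ _ (hβ i))
    · rw [h2, Finset.mul_sum]
      refine Finset.sum_congr rfl fun i _ => ?_
      rw [h1 i]
      field_simp

variable {O : Subalgebra k E} (hO : IsPt A O) (huO : NU O u) (hvO : NU O v)
  (hgen : ∀ x ∈ A, NU O x → Idl A u v x)

include huO hvO hgen in
lemma idl_iff_NU {a : E} (ha : a ∈ A) (hO : IsPt A O) : Idl A u v a ↔ NU O a := by
  constructor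
  · rintro ⟨α, hα, β, hβ, rfl⟩
    exact hO.loc _ _ (huO.mul_left (hO.le hα)) (hvO.mul_left (hO.le hβ))
  · exact hgen a ha

include ht hv0 hO huO hvO hgen in
/-- The exceptional divisor is irreducible. -/
lemma prime_exc : (Ideal.span {(⟨v, le_adj _ _ hv⟩ : adj A (u / v))}).IsPrime := by
  have hmem : ∀ P : (A)[X], evA' A (u / v) P ∈
      Ideal.span {(⟨v, le_adj _ _ hv⟩ : adj A (u / v))} ↔ P ∈ hO.mx.map C := by
    intro P
    rw [Ideal.mem_map_C_iff]
    have h1 := dvd_iff_coeff hu hv hv0 ht P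
    rw [Ideal.mem_span_singleton]
    constructor
    · rintro ⟨b, hb⟩ j
      have h2 := h1.1 ⟨b, b.2, congrArg Subtype.val hb⟩ j
      exact (idl_iff_NU huO hvO hgen (P.coeff j).2 hO).1 h2
    · intro h
      obtain ⟨b, hb, h2⟩ := h1.2 fun j => (idl_iff_NU huO hvO hgen (P.coeff j).2 hO).2 (h j)
      exact ⟨⟨b, hb⟩, Subtype.ext h2⟩
  have hm := hO.isMaximal.isPrime
  have hp : (hO.mx.map (C : A →+* (A)[X])).IsPrime := Ideal.isPrime_map_C_of_isPrime
  refine ⟨?_, ?_⟩
  · intro h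
    rw [Ideal.eq_top_iff_one, ← map_one (evA' A (u / v)), hmem] at h
    exact hp.ne_top ((Ideal.eq_top_iff_one _).2 h)
  · intro x y hxy
    obtain ⟨P, rfl⟩ := evA'_surj A (u / v) x
    obtain ⟨Q, rfl⟩ := evA'_surj A (u / v) y
    rw [← map_mul, hmem] at hxy
    rw [hmem, hmem]
    exact hp.mem_or_mem hxy

include ht hv0 hO huO hvO hgen in
/-- The local ring of the exceptional divisor. -/
lemma exists_exc (hu0 : u ≠ 0) (ht' : Trans A (⟨v, hv⟩ : A) ⟨u, hu⟩) :
    ∃ W : Subalgebra k E, (IsDv (adj A (u / v)) W ∧ NU W v ∧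
      ∀ a ∈ adj A (u / v), NU W a → ∃ b ∈ adj A (u / v), a = v * b) ∧
      (IsDv (adj A (v / u)) W ∧ NU W u ∧
      ∀ a ∈ adj A (v / u), NU W a → ∃ b ∈ adj A (v / u), a = u * b) := by
  have hp := prime_exc hu hv hv0 ht hO huO hvO hgen
  have hcoef := fun P => dvd_iff_coeff hu hv hv0 ht P
  let W := locAt (adj A (u / v)) _ hp
  have hNU : ∀ a ∈ adj A (u / v), NU W a ↔ ∃ b ∈ adj A (u / v), a = v * b := by
    intro a ha
    have h1 : NU W a ↔ (⟨a, ha⟩ : adj A (u / v)) ∈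
      Ideal.span {(⟨v, le_adj _ _ hv⟩ : adj A (u / v))} := NU_locAt (a := ⟨a, ha⟩)
    rw [h1, Ideal.mem_span_singleton]
    constructor
    · rintro ⟨b, hb⟩
      exact ⟨b, b.2, congrArg Subtype.val hb⟩
    · rintro ⟨b, hb, h2⟩
      exact ⟨⟨b, hb⟩, Subtype.ext h2⟩
  have hNUe : ∀ P : (A)[X], NU W (evA A (u / v) P) ↔ ∀ j, NU O (P.coeff j) := by
    intro P
    have hPm : evA A (u / v) P ∈ adj A (u / v) := ⟨P, rfl⟩
    rw [hNU _ hPm, hcoef P]
    exact forall_congr' fun j => idl_iff_NU huO hvO hgen (P.coeff j).2 hO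
  have hvW : NU W v := (hNU v (le_adj _ _ hv)).2 ⟨1, (adj A (u / v)).one_mem, (mul_one v).symm⟩
  have huv0 : u / v ≠ 0 := div_ne_zero hu0 hv0
  have htr : ∀ P : k[X], P ≠ 0 → ¬ NU W (aeval (u / v) P) := by
    intro P hP h
    have e : aeval (u / v) P = evA A (u / v) (P.map (algebraMap k A)) := by
      change _ = aeval (u / v) _
      rw [Polynomial.aeval_map_algebraMap]
    rw [e, hNUe] at h
    have h1 := h P.natDegree
    rw [Polynomial.coeff_map] at h1
    have h2 : P.leadingCoeff ≠ 0 := Polynomial.leadingCoeff_ne_zero.2 hP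
    refine h1.2 (algebraMap k E (P.leadingCoeff)⁻¹) (O.algebraMap_mem _) ?_
    change algebraMap k E (P.coeff P.natDegree) * _ = 1
    rw [← map_mul, Polynomial.coeff_natDegree, mul_inv_cancel₀ h2, map_one]
  have huvW : ¬ NU W (u / v) := by
    have := htr X X_ne_zero
    rwa [aeval_X] at this
  have huvW' : u / v ∈ W := le_locAt (self_mem_adj _ _)
  have hvuW : v / u ∈ W := by
    have := ((not_NU_iff huvW').1 huvW).2
    rwa [inv_div] at this
  have h1 : IsDv (adj A (u / v)) W :=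
    { le := le_locAt
      frac := locAt_frac
      loc := locAt_loc
      nt := ⟨v, le_adj _ _ hv, hv0, hvW⟩
      tr := ⟨u / v, self_mem_adj _ _, htr⟩ }
  have hA2 : adj A (v / u) ≤ W := adj_le ((le_adj _ _).trans h1.le) hvuW
  have hcl : ∀ a ∈ adj A (u / v), ∃ n : ℕ, a * (v / u) ^ n ∈ adj A (v / u) := by
    intro a ha
    refine adj_induction A (u / v) (p := fun f => ∃ n : ℕ, f * (v / u) ^ n ∈ adj A (v / u))
      ?_ ?_ ?_ a ha
    · intro a ha
      exact ⟨0, by rw [pow_zero, mul_one]; exact le_adj _ _ ha⟩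
    · rintro a b ⟨n, hn⟩ ⟨m, hm⟩
      refine ⟨n + m, ?_⟩
      have e : (a + b) * (v / u) ^ (n + m) = a * (v / u) ^ n * (v / u) ^ m +
          b * (v / u) ^ m * (v / u) ^ n := by ring
      rw [e]
      exact (adj A (v / u)).add_mem
        ((adj A (v / u)).mul_mem hn ((adj A (v / u)).pow_mem (self_mem_adj _ _) m))
        ((adj A (v / u)).mul_mem hm ((adj A (v / u)).pow_mem (self_mem_adj _ _) n))
    · rintro a ⟨n, hn⟩
      refine ⟨n + 1, ?_⟩
      have e : a * (u / v) * (v / u) ^ (n + 1) = a * (v / u) ^ n := by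
        rw [pow_succ']
        field_simp
      rw [e]
      exact hn
  refine ⟨W, ⟨h1, hvW, fun a ha => (hNU a ha).1⟩, h1.of_frac hA2 ?_, ?_, ?_⟩
  · intro x hx
    obtain ⟨a, ha, b, hb, hb0, hbi, rfl⟩ := h1.frac x hx
    obtain ⟨n, hn⟩ := hcl a ha
    obtain ⟨m, hm⟩ := hcl b hb
    have hvu0 : v / u ≠ 0 := div_ne_zero hv0 hu0
    have e0 : (v / u)⁻¹ = u / v := inv_div _ _
    refine ⟨a * (v / u) ^ n * (v / u) ^ m, (adj A (v / u)).mul_mem hn
      ((adj A (v / u)).pow_mem (self_mem_adj _ _) m), b * (v / u) ^ m * (v / u) ^ n,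
      (adj A (v / u)).mul_mem hm ((adj A (v / u)).pow_mem (self_mem_adj _ _) n), ?_, ?_, ?_⟩
    · exact mul_ne_zero (mul_ne_zero hb0 (pow_ne_zero _ hvu0)) (pow_ne_zero _ hvu0)
    · rw [mul_inv, mul_inv, ← inv_pow, ← inv_pow, e0]
      exact W.mul_mem (W.mul_mem hbi (W.pow_mem huvW' m)) (W.pow_mem huvW' n)
    · have h3 := pow_ne_zero n hvu0
      have h4 := pow_ne_zero m hvu0
      rw [mul_inv, mul_inv]
      have e1 : a * (v / u) ^ n * (v / u) ^ m * (b⁻¹ * ((v / u) ^ m)⁻¹ * ((v / u) ^ n)⁻¹) =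
          a * b⁻¹ * ((v / u) ^ n * ((v / u) ^ n)⁻¹) * ((v / u) ^ m * ((v / u) ^ m)⁻¹) := by ring
      rw [e1, mul_inv_cancel₀ h3, mul_inv_cancel₀ h4, mul_one, mul_one]
  · have : u = v * (u / v) := by field_simp
    rw [this]
    exact hvW.mul_right huvW'
  · intro a ha haW
    obtain ⟨P, rfl⟩ := ha
    change NU W (evA A (v / u) P) at haW
    change ∃ b ∈ adj A (v / u), evA A (v / u) P = u * b
    rw [dvd_iff_coeff hv hu hu0 ht' P]
    -- the reversed polynomial
    have hvu0 : v / u ≠ 0 := div_ne_zero hv0 hu0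
    let _ : Invertible (v / u) := invertibleOfNonzero hvu0
    have e1 : evA A (u / v) P.reverse * (v / u) ^ P.natDegree = evA A (v / u) P := by
      have e2 : ∀ (w : E) (Q : (A)[X]), evA A w Q = Polynomial.eval₂ (algebraMap A E) w Q :=
        fun w Q => rfl
      rw [e2, e2]
      have h4 := Polynomial.eval₂_reverse_mul_pow (algebraMap A E) (v / u) P
      rwa [invOf_eq_inv, inv_div] at h4
    have hPm : evA A (u / v) P.reverse ∈ W := h1.le ⟨P.reverse, rfl⟩
    rw [← e1, NU_mul_iff hPm (W.pow_mem hvuW _)] at haW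
    have h5 : NU W (evA A (u / v) P.reverse) := by
      refine haW.resolve_right fun h6 => ?_
      have h7 := NU_pow hvuW h6
      refine h7.2 (u / v) huvW' ?_
      field_simp
    rw [hNUe] at h5
    intro j
    by_cases hj : j ≤ P.natDegree
    · have h6 := h5 (P.natDegree - j)
      rw [Polynomial.coeff_reverse, Polynomial.revAt_le (Nat.sub_le _ _),
        Nat.sub_sub_self hj] at h6
      exact ((idl_iff_NU huO hvO hgen (P.coeff j).2 hO).2 h6).symm
    · rw [Polynomial.coeff_eq_zero_of_natDegree_lt (not_le.1 hj)]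
      exact ⟨0, A.zero_mem, 0, A.zero_mem, by simp⟩

end exc

end Pool.Agent.W558
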