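import Pool.Agent.H59.L.S8.W558.S.BlSnc
import Pool.Agent.H59.L.S8.W558.Model

set_option autoImplicit false
set_option linter.unusedVariables false
set_option linter.unusedSimpArgs false
set_option linter.unusedSectionVars false

universe u

open Polynomial

namespace Pool.Agent.W558

section gen

variable {k K : Type u} [Field k] [Field K] [Algebra k K] {T I : Type}
    (M : LM (⊥ : Subalgebra k K) ⊤ T I)

/-- The ideal generated by `u` and `v` on a chart. -/
def Idl (A : Subalgebra k K) (u v y : K) : Prop := ∃ α ∈ A, ∃ β ∈ A, y = α * u + β * v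

lemma Idl.symm {A : Subalgebra k K} {u v y : K} (h : Idl A u v y) : Idl A v u y := by
  obtain ⟨α, hα, β, hβ, h1⟩ := h
  exact ⟨β, hβ, α, hα, by rw [h1]; ring⟩

lemma Idl.mul {A : Subalgebra k K} {u v y a : K} (h : Idl A u v y) (ha : a ∈ A) :
    Idl A u v (a * y) := by
  obtain ⟨α, hα, β, hβ, h1⟩ := h
  exact ⟨a * α, A.mul_mem ha hα, a * β, A.mul_mem ha hβ, by rw [h1]; ring⟩

lemma Idl.left {A : Subalgebra k K} {u v : K} : Idl A u v u :=
  ⟨1, A.one_mem, 0, A.zero_mem, by ring⟩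

lemma Idl.right {A : Subalgebra k K} {u v : K} : Idl A u v v :=
  ⟨0, A.zero_mem, 1, A.one_mem, by ring⟩

/-- Data for the blowup of a locally two-generated ideal. -/
structure BlData (u v : T → K) (thr : I → Prop) : Prop where
  uA : ∀ t, u t ∈ M.A t
  vA : ∀ t, v t ∈ M.A t
  u0 : ∀ t, u t ≠ 0
  v0 : ∀ t, v t ≠ 0
  tr : ∀ t, Trans (M.A t) (⟨u t, uA t⟩ : M.A t) ⟨v t, vA t⟩
  tr' : ∀ t, Trans (M.A t) (⟨v t, vA t⟩ : M.A t) ⟨u t, uA t⟩
  cu : ∀ t t', ∃ n : ℕ, Idl (M.A t) (u t) (v t) ((M.H t' / M.H t) ^ n * u t')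
  cv : ∀ t t', ∃ n : ℕ, Idl (M.A t) (u t) (v t) ((M.H t' / M.H t) ^ n * v t')
  th : ∀ i, thr i → ∀ t, Idl (M.A t) (u t) (v t) (M.x t i)
  nth : ∀ i, ¬ thr i → ∀ t, ∀ (κ : Type u) [Field κ] [Algebra k κ] (φ : M.A t →ₐ[k] κ),
      φ ⟨u t, uA t⟩ = 0 → φ ⟨v t, vA t⟩ = 0 → φ ⟨M.x t i, M.xA t i⟩ ≠ 0

variable {M} {u v : T → K} {thr : I → Prop} (h : BlData M u v thr)

/-- The denominator. -/
def ge (u v : T → K) (p : T × Bool) : K := if p.2 then v p.1 else u p.1

/-- The numerator. -/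
def gn (u v : T → K) (p : T × Bool) : K := if p.2 then u p.1 else v p.1

include h

lemma BlData.ge0 (p : T × Bool) : ge u v p ≠ 0 := by
  unfold ge
  split_ifs
  · exact h.v0 _
  · exact h.u0 _

lemma BlData.gn0 (p : T × Bool) : gn u v p ≠ 0 := by
  unfold gn
  split_ifs
  · exact h.u0 _
  · exact h.v0 _

lemma BlData.geA (p : T × Bool) : ge u v p ∈ M.A p.1 := by
  unfold ge
  split_ifs
  · exact h.vA _
  · exact h.uA _

lemma BlData.gnA (p : T × Bool) : gn u v p ∈ M.A p.1 := by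
  unfold gn
  split_ifs
  · exact h.uA _
  · exact h.vA _

lemma BlData.idl_iff (p : T × Bool) {y : K} (hy : Idl (M.A p.1) (u p.1) (v p.1) y) :
    Idl (M.A p.1) (gn u v p) (ge u v p) y := by
  unfold gn ge
  split_ifs
  · exact hy
  · exact hy.symm

lemma BlData.trp (p : T × Bool) :
    Trans (M.A p.1) (⟨gn u v p, h.gnA p⟩ : M.A p.1) ⟨ge u v p, h.geA p⟩ := by
  rcases p with ⟨t, b⟩
  cases b
  · exact h.tr' t
  · exact h.tr t

omit h in
lemma div_mem_of_idl {A : Subalgebra k K} {u v y : K} (hv : v ≠ 0) (hy : Idl A u v y) :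
    y / v ∈ adj A (u / v) := by
  obtain ⟨α, hα, β, hβ, rfl⟩ := hy
  have e : (α * u + β * v) / v = α * (u / v) + β := by field_simp
  rw [e]
  exact (adj A (u / v)).add_mem ((adj A (u / v)).mul_mem (le_adj _ _ hα) (self_mem_adj _ _))
    (le_adj _ _ hβ)

open Classical in
/-- The blowup of a locally two-generated ideal. -/
theorem BlData.exists_blow [Finite T] [Finite I] :
    ∃ M' : LM (⊥ : Subalgebra k K) ⊤ (T × Bool) (Option I),
      (∀ p, M'.A p = adj (M.A p.1) (gn u v p / ge u v p)) ∧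
      (∀ p, M'.x p = px thr (M.x p.1) (ge u v p)) := by
  have : Fintype T := Fintype.ofFinite T
  have : Fintype I := Fintype.ofFinite I
  choose nu hnu using h.cu
  choose nv hnv using h.cv
  choose ni hni using M.gi
  let N0 : ℕ := (Finset.univ.sup fun q : T × T => nu q.1 q.2) +
    (Finset.univ.sup fun q : T × T => nv q.1 q.2) +
    (Finset.univ.sup fun q : T × T × I => ni q.1 q.2.1 q.2.2)
  have hmono : ∀ (t t' : T) (y : K) (n m : ℕ), n ≤ m →
      Idl (M.A t) (u t) (v t) ((M.H t' / M.H t) ^ n * y) →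
      Idl (M.A t) (u t) (v t) ((M.H t' / M.H t) ^ m * y) := by
    intro t t' y n m hnm h1
    obtain ⟨e, rfl⟩ := Nat.exists_eq_add_of_le hnm
    have e1 : (M.H t' / M.H t) ^ (n + e) * y =
        (M.H t' / M.H t) ^ e * ((M.H t' / M.H t) ^ n * y) := by ring
    rw [e1]
    exact h1.mul ((M.A t).pow_mem (M.rt t t') e)
  have hNu : ∀ t t' n, N0 ≤ n → Idl (M.A t) (u t) (v t) ((M.H t' / M.H t) ^ n * u t') := by
    intro t t' n hn
    refine hmono t t' _ _ n ?_ (hnu t t')
    have h1 : nu t t' ≤ Finset.univ.sup fun q : T × T => nu q.1 q.2 :=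
      Finset.le_sup (f := fun q : T × T => nu q.1 q.2) (Finset.mem_univ (t, t'))
    omega
  have hNv : ∀ t t' n, N0 ≤ n → Idl (M.A t) (u t) (v t) ((M.H t' / M.H t) ^ n * v t') := by
    intro t t' n hn
    refine hmono t t' _ _ n ?_ (hnv t t')
    have h1 : nv t t' ≤ Finset.univ.sup fun q : T × T => nv q.1 q.2 :=
      Finset.le_sup (f := fun q : T × T => nv q.1 q.2) (Finset.mem_univ (t, t'))
    omega
  have hNi : ∀ t t' i n, N0 ≤ n → (M.H t' / M.H t) ^ n * (M.x t' i / M.x t i) ∈ M.A t := by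
    intro t t' i n hn
    refine M.gl_mono ?_ (hni t t' i)
    have h1 : ni t t' i ≤ Finset.univ.sup fun q : T × T × I => ni q.1 q.2.1 q.2.2 :=
      Finset.le_sup (f := fun q : T × T × I => ni q.1 q.2.1 q.2.2) (Finset.mem_univ (t, t', i))
    omega
  let A' : T × Bool → Subalgebra k K := fun p => adj (M.A p.1) (gn u v p / ge u v p)
  have hle : ∀ p, M.A p.1 ≤ A' p := fun p => le_adj _ _
  have hvv : ∀ p, gn u v p / ge u v p ∈ A' p := fun p => self_mem_adj _ _
  have hidl : ∀ p y, Idl (M.A p.1) (u p.1) (v p.1) y → y / ge u v p ∈ A' p := fun p y hy =>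
    div_mem_of_idl (h.ge0 p) (h.idl_iff p hy)
  let N : ℕ := 2 * N0 + 1
  let H' : T × Bool → K := fun p => M.H p.1 ^ N * ge u v p
  have hH0 : ∀ p, H' p ≠ 0 := fun p => mul_ne_zero (pow_ne_zero _ (M.H0 _)) (h.ge0 p)
  have hqe : ∀ (p p' : T × Bool) (n : ℕ), N0 ≤ n →
      (M.H p'.1 / M.H p.1) ^ n * ge u v p' / ge u v p ∈ A' p := by
    intro p p' n hn
    apply hidl
    unfold ge
    split_ifs
    · exact hNv _ _ _ hn
    · exact hNu _ _ _ hn
  have hqn : ∀ (p p' : T × Bool) (n : ℕ), N0 ≤ n →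
      (M.H p'.1 / M.H p.1) ^ n * gn u v p' / ge u v p ∈ A' p := by
    intro p p' n hn
    apply hidl
    unfold gn
    split_ifs
    · exact hNu _ _ _ hn
    · exact hNv _ _ _ hn
  have hρ0 : ∀ p p' : T × Bool, H' p' / H' p =
      (M.H p'.1 / M.H p.1) ^ N * ge u v p' / ge u v p := by
    intro p p'
    have h1 := M.H0 p.1
    have h2 := h.ge0 p
    simp only [H']
    rw [div_pow]
    field_simp
  have hρ : ∀ p p' : T × Bool, H' p' / H' p =
      (M.H p'.1 / M.H p.1) * ((M.H p'.1 / M.H p.1) ^ (2 * N0) * ge u v p' / ge u v p) := by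
    intro p p'
    rw [hρ0, show N = 2 * N0 + 1 from rfl, pow_succ]
    ring
  have hρmem : ∀ p p' : T × Bool, H' p' / H' p ∈ A' p := by
    intro p p'
    rw [hρ0]
    exact hqe p p' N (by omega)
  have hgl : ∀ p p' : T × Bool, ∀ f ∈ A' p', ∃ n : ℕ, (H' p' / H' p) ^ n * f ∈ A' p := by
    intro p p' f hf
    refine adj_induction (M.A p'.1) (gn u v p' / ge u v p')
      (p := fun f => ∃ n : ℕ, (H' p' / H' p) ^ n * f ∈ A' p) ?_ ?_ ?_ f hf
    · intro a ha
      obtain ⟨n, hn⟩ := M.gl p.1 p'.1 a ha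
      refine ⟨n, ?_⟩
      rw [hρ, mul_pow, mul_right_comm]
      exact (A' p).mul_mem (hle p hn) ((A' p).pow_mem (hqe p p' _ (by omega)) n)
    · rintro a b ⟨n, hn⟩ ⟨m, hm⟩
      refine ⟨n + m, ?_⟩
      have h1 : (H' p' / H' p) ^ (n + m) * (a + b) =
          (H' p' / H' p) ^ m * ((H' p' / H' p) ^ n * a) +
          (H' p' / H' p) ^ n * ((H' p' / H' p) ^ m * b) := by
        ring
      rw [h1]
      exact (A' p).add_mem
        ((A' p).mul_mem ((A' p).pow_mem (hρmem p p') m) hn)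
        ((A' p).mul_mem ((A' p).pow_mem (hρmem p p') n) hm)
    · rintro a ⟨n, hn⟩
      refine ⟨n + 1, ?_⟩
      have h1 : (H' p' / H' p) ^ (n + 1) * (a * (gn u v p' / ge u v p')) =
          (H' p' / H' p) ^ n * a * (H' p' / H' p * (gn u v p' / ge u v p')) := by ring
      rw [h1]
      refine (A' p).mul_mem hn ?_
      have h2 : H' p' / H' p * (gn u v p' / ge u v p') =
          (M.H p'.1 / M.H p.1) ^ N * gn u v p' / ge u v p := by
        rw [hρ0]
        have h2 := h.ge0 p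
        have h3 := h.ge0 p'
        field_simp
      rw [h2]
      exact hqn p p' N (by omega)
  refine ⟨{ A := A', H := H', x := fun p => px thr (M.x p.1) (ge u v p)
            sm := fun p => ?_, base := fun p => bot_le, H0 := hH0, HR := fun _ => trivial
            rt := hρmem, gl := hgl, dn := fun p f _ => ⟨0, trivial⟩
            cv := ?_, xA := ?_, x0 := ?_, gi := ?_, snc := ?_ }, fun _ => rfl, fun _ => rfl⟩
  · have := M.sm p.1
    exact smooth_adj (x := ⟨gn u v p, h.gnA p⟩) (y := ⟨ge u v p, h.geA p⟩) (h.ge0 p) (h.trp p)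
  · intro V hV
    obtain ⟨t, ht⟩ := M.cv V hV
    have h1 : ∀ b : Bool, gn u v (t, b) / ge u v (t, b) ∈ V → ∀ f ∈ A' (t, b), f ∈ V := by
      intro b hb
      exact adj_induction (M.A t) _ ht (fun a b ha hb => V.add_mem _ _ ha hb)
        (fun a ha => V.mul_mem _ _ ha hb)
    rcases V.mem_or_inv_mem (gn u v (t, true) / ge u v (t, true)) with h2 | h2
    · exact ⟨(t, true), h1 true h2⟩
    · refine ⟨(t, false), h1 false ?_⟩
      have : gn u v (t, false) / ge u v (t, false) =
          (gn u v (t, true) / ge u v (t, true))⁻¹ := by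
        simp [gn, ge]
      rw [this]
      exact h2
  · rintro p (_ | i)
    · exact hle p (h.geA p)
    · by_cases hi : thr i
      · simp only [px, if_pos hi]
        exact hidl p _ (h.th i hi p.1)
      · simp only [px, if_neg hi]
        exact hle p (M.xA _ _)
  · rintro p (_ | i)
    · exact h.ge0 p
    · by_cases hi : thr i
      · simp only [px, if_pos hi]
        exact div_ne_zero (M.x0 _ _) (h.ge0 p)
      · simp only [px, if_neg hi]
        exact M.x0 _ _
  · rintro p p' (_ | i)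
    · refine ⟨1, ?_⟩
      have h1 : (H' p' / H' p) ^ 1 * (ge u v p' / ge u v p) =
          (M.H p'.1 / M.H p.1) *
          ((M.H p'.1 / M.H p.1) ^ N0 * ge u v p' / ge u v p) ^ 2 := by
        rw [pow_one, hρ, mul_comm 2 N0, pow_mul]
        ring
      change (H' p' / H' p) ^ 1 * (ge u v p' / ge u v p) ∈ A' p
      rw [h1]
      exact (A' p).mul_mem (hle p (M.rt _ _)) ((A' p).pow_mem (hqe p p' _ le_rfl) 2)
    · by_cases hi : thr i
      · simp only [px, if_pos hi]
        refine ⟨1, ?_⟩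
        have h1 : (H' p' / H' p) ^ 1 * (M.x p'.1 i / ge u v p' / (M.x p.1 i / ge u v p)) =
            (M.H p'.1 / M.H p.1) ^ N * (M.x p'.1 i / M.x p.1 i) := by
          rw [pow_one, hρ0]
          have h2 := h.ge0 p
          have h3 := h.ge0 p'
          have h4 := M.x0 p.1 i
          field_simp
        rw [h1]
        exact hle p (hNi _ _ _ _ (by omega))
      · simp only [px, if_neg hi]
        refine ⟨N0, ?_⟩
        rw [hρ, mul_pow, mul_right_comm]
        exact (A' p).mul_mem (hle p (hNi _ _ _ _ le_rfl)) ((A' p).pow_mem (hqe p p' _ (by omega)) N0)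
  · intro p
    have := M.sm p.1
    refine SNC.blowPt (M.snc p.1) (M.xA p.1) (M.x0 p.1) (h.gnA p) (h.geA p) (h.ge0 p)
      (h.trp p) ?_ thr (fun i hi => h.idl_iff p (h.th i hi p.1)) ?_
    · rcases p with ⟨t, b⟩
      cases b
      · exact h.tr t
      · exact h.tr' t
    · intro i hi κ _ _ φ h1 h2
      rcases p with ⟨t, b⟩
      cases b
      · exact h.nth i hi t κ φ h2 h1
      · exact h.nth i hi t κ φ h1 h2

end gen

end Pool.Agent.W558
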