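import Pool.Agent.H59.L.S8.W558.SNC

set_option autoImplicit false
set_option linter.unusedVariables false
set_option linter.unusedSimpArgs false

universe u

open Polynomial

namespace Pool.Agent.W558

section snc

variable {k K : Type u} [Field k] [Field K] [Algebra k K]

/-- The boundary on a chart of the blowup of a point. -/
noncomputable def px {I : Type} (thr : I → Prop) [DecidablePred thr] (x : I → K) (v : K) :
    Option I → K
  | none => v
  | some l => if thr l then x l / v else x l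

/-- Blowups of points preserve simple normal crossings. -/
theorem SNC.blowPt {A : Subalgebra k K} [Algebra.Smooth k A] {I : Type}
    {x : I → K} (h : SNC A x) (hx : ∀ i, x i ∈ A) (hx0 : ∀ i, x i ≠ 0) {u v : K} (hu : u ∈ A)
    (hv : v ∈ A) (hv0 : v ≠ 0) (ht : Trans A (⟨u, hu⟩ : A) ⟨v, hv⟩)
    (ht' : Trans A (⟨v, hv⟩ : A) ⟨u, hu⟩) (thr : I → Prop) [DecidablePred thr]
    (hthr : ∀ i, thr i → ∃ α ∈ A, ∃ β ∈ A, x i = α * u + β * v)
    (hn : ∀ i, ¬ thr i → ∀ (κ : Type u) [Field κ] [Algebra k κ] (φ : A →ₐ[k] κ),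
      φ ⟨u, hu⟩ = 0 → φ ⟨v, hv⟩ = 0 → φ ⟨x i, hx i⟩ ≠ 0) :
    SNC (adj A (u / v)) (px thr x v) := by
  have hy0 : ((⟨v, hv⟩ : A) : K) ≠ 0 := hv0
  intro κ _ _ φ o ho hφo
  let φ0 : A →ₐ[k] κ := φ.comp (Subalgebra.inclusion (le_adj A (u / v)))
  have hφ0 : ∀ a : A, φ ⟨a, le_adj A _ a.2⟩ = φ0 a := fun a => rfl
  have hφ0' : ∀ (a : K) (ha : a ∈ A) (ha' : a ∈ adj A (u / v)), φ ⟨a, ha'⟩ = φ0 ⟨a, ha⟩ :=
    fun a ha ha' => rfl
  have hw : u / v ∈ adj A (u / v) := self_mem_adj A _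
  set w : κ := φ ⟨u / v, hw⟩ with hwdef
  have hrel : φ0 ⟨v, hv⟩ * w = φ0 ⟨u, hu⟩ := by
    rw [← hφ0, ← hφ0, hwdef, ← map_mul]
    congr 1
    apply Subtype.ext
    change v * (u / v) = u
    field_simp
  -- it suffices to find tangent vectors of `A`
  have key : ∀ (D : TV φ0) (c : κ), φ0 ⟨v, hv⟩ * c + w * D.D ⟨v, hv⟩ =
      D.D ⟨u, hu⟩ → ∃ E : TV φ, (∀ (a : K) (ha : a ∈ A) (ha' : a ∈ adj A (u / v)),
        E.D ⟨a, ha'⟩ = D.D ⟨a, ha⟩) ∧ E.D ⟨u / v, hw⟩ = c := by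
    intro D c hc
    obtain ⟨E, hE1, hE2⟩ := TV.ext_adj hy0 ht φ φ0 hφ0 D c hc
    exact ⟨E, fun a ha ha' => hE1 ⟨a, ha⟩, hE2⟩
  choose α hα β hβ hαβ using hthr
  have hdiv : ∀ i (hi : thr i), x i / v = α i hi * (u / v) + β i hi := by
    intro i hi
    conv_lhs => rw [hαβ i hi]
    field_simp
  have hdm : ∀ i (hi : thr i), x i / v ∈ adj A (u / v) := by
    intro i hi
    rw [hdiv i hi]
    exact (adj A (u / v)).add_mem ((adj A (u / v)).mul_mem (le_adj _ _ (hα i hi)) hw)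
      (le_adj _ _ (hβ i hi))
  have hdivv : ∀ i (hi : thr i) (hm : x i / v ∈ adj A (u / v)),
      (⟨x i / v, hm⟩ : adj A (u / v)) = ⟨α i hi, le_adj _ _ (hα i hi)⟩ * ⟨u / v, hw⟩ +
        ⟨β i hi, le_adj _ _ (hβ i hi)⟩ := fun i hi hm => Subtype.ext (hdiv i hi)
  have hxv : ∀ i (hi : thr i) (hm : x i / v ∈ adj A (u / v)),
      (⟨x i, le_adj _ _ (hx i)⟩ : adj A (u / v)) = ⟨x i / v, hm⟩ * ⟨v, le_adj _ _ hv⟩ :=
    fun i hi hm => Subtype.ext (by change x i = x i / v * v; field_simp)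
  -- values and derivatives
  have hval : ∀ i (hi : thr i) (hm : x i / v ∈ adj A (u / v)),
      φ ⟨x i / v, hm⟩ = φ0 ⟨α i hi, hα i hi⟩ * w + φ0 ⟨β i hi, hβ i hi⟩ := by
    intro i hi hm
    rw [hdivv i hi hm, map_add, map_mul]
    rfl
  have hval0 : ∀ i (hi : thr i) (hm : x i / v ∈ adj A (u / v)), φ ⟨x i / v, hm⟩ = 0 →
      φ0 ⟨x i, hx i⟩ = 0 := by
    intro i hi hm h0
    rw [← hφ0, hxv i hi hm, map_mul, h0, zero_mul]
  have hder : ∀ (E : TV φ) (D : TV φ0), (∀ (a : K) (ha : a ∈ A) (ha' : a ∈ adj A (u / v)),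
      E.D ⟨a, ha'⟩ = D.D ⟨a, ha⟩) → ∀ i (hi : thr i) (hm : x i / v ∈ adj A (u / v)),
      E.D ⟨x i / v, hm⟩ = φ0 ⟨α i hi, hα i hi⟩ * E.D ⟨u / v, hw⟩ + w * D.D ⟨α i hi, hα i hi⟩ +
        D.D ⟨β i hi, hβ i hi⟩ := by
    intro E D hE i hi hm
    rw [hdivv i hi hm, map_add, E.leib, hE _ (hα i hi), hE _ (hβ i hi)]
    rfl
  have hder' : ∀ (E : TV φ) (D : TV φ0), (∀ (a : K) (ha : a ∈ A) (ha' : a ∈ adj A (u / v)),
      E.D ⟨a, ha'⟩ = D.D ⟨a, ha⟩) → ∀ i (hi : thr i) (hm : x i / v ∈ adj A (u / v)),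
      φ ⟨x i / v, hm⟩ = 0 → D.D ⟨x i, hx i⟩ = φ0 ⟨v, hv⟩ * E.D ⟨x i / v, hm⟩ := by
    intro E D hE i hi hm h0
    rw [← hE _ (hx i) (le_adj _ _ (hx i)), hxv i hi hm, E.leib, h0, zero_mul, zero_add]
    rfl
  by_cases hY : φ0 ⟨v, hv⟩ = 0
  · have hX : φ0 ⟨u, hu⟩ = 0 := by rw [← hrel, hY, zero_mul]
    -- derivatives of `x i` at points over the centre
    have hDx : ∀ (D : TV φ0) i (hi : thr i) (hm : x i / v ∈ adj A (u / v)),
        φ ⟨x i / v, hm⟩ = 0 → D.D ⟨x i, hx i⟩ =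
          φ0 ⟨α i hi, hα i hi⟩ * (D.D ⟨u, hu⟩ - w * D.D ⟨v, hv⟩) := by
      intro D i hi hm h0
      rw [hval i hi hm] at h0
      have e : (⟨x i, hx i⟩ : A) = ⟨α i hi, hα i hi⟩ * ⟨u, hu⟩ + ⟨β i hi, hβ i hi⟩ * ⟨v, hv⟩ :=
        Subtype.ext (hαβ i hi)
      rw [e, map_add, D.leib, D.leib, hX, hY]
      linear_combination (-(D.D ⟨v, hv⟩)) * (-h0)
    have hα0 : ∀ i (hi : thr i) (hm : x i / v ∈ adj A (u / v)), φ ⟨x i / v, hm⟩ = 0 →
        φ0 ⟨α i hi, hα i hi⟩ ≠ 0 := by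
      intro i hi hm h0 h1
      obtain ⟨D, hD, -⟩ := h κ φ0 i (hx i) (hval0 i hi hm h0)
      rw [hDx D i hi hm h0, h1, zero_mul] at hD
      exact zero_ne_one hD
    have huniq : ∀ i (hi : thr i) (hm : x i / v ∈ adj A (u / v)) j (hj : thr j)
        (hm' : x j / v ∈ adj A (u / v)), φ ⟨x i / v, hm⟩ = 0 → φ ⟨x j / v, hm'⟩ = 0 → i = j := by
      intro i hi hm j hj hm' h0 h1
      by_contra hne
      obtain ⟨D, hD, hD'⟩ := h κ φ0 i (hx i) (hval0 i hi hm h0)
      have h2 := hD' j (hx j) (Ne.symm hne) (hval0 j hj hm' h1)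
      rw [hDx D i hi hm h0] at hD
      rw [hDx D j hj hm' h1] at h2
      rcases mul_eq_zero.1 h2 with h3 | h3
      · exact hα0 j hj hm' h1 h3
      · rw [h3, mul_zero] at hD
        exact zero_ne_one hD
    cases o with
    | none =>
      obtain ⟨D1, hD1, hD1'⟩ := ht.xy κ φ0 hX hY
      obtain ⟨D2, hD2, hD2'⟩ := ht'.xy κ φ0 hY hX
      let D := TV.comb w 1 D1 D2
      have hDv : D.D ⟨v, hv⟩ = 1 := by
        change w * D1.D _ + 1 * D2.D _ = 1
        rw [hD1', hD2]; ring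
      have hDu : D.D ⟨u, hu⟩ = w := by
        change w * D1.D _ + 1 * D2.D _ = w
        rw [hD1, hD2']; ring
      by_cases hex : ∃ i, ∃ (hi : thr i) (hm : x i / v ∈ adj A (u / v)), φ ⟨x i / v, hm⟩ = 0
      · obtain ⟨i, hi, hm, h0⟩ := hex
        have h1 := hα0 i hi hm h0
        obtain ⟨E, hE, hE'⟩ := key D (-(w * D.D ⟨α i hi, hα i hi⟩ + D.D ⟨β i hi, hβ i hi⟩) /
          φ0 ⟨α i hi, hα i hi⟩) (by rw [hY, hDv, hDu]; ring)
        refine ⟨E, (hE v hv ho).trans hDv, ?_⟩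
        rintro (_ | l) hl hne hφl
        · exact absurd rfl hne
        · by_cases hlt : thr l
          · simp only [px, if_pos hlt] at hl hφl ⊢
            obtain rfl := huniq i hi hm l hlt hl h0 hφl
            rw [hder E D hE i hi hl, hE']
            field_simp
            ring
          · simp only [px, if_neg hlt] at hl hφl ⊢
            exact absurd hφl (hn l hlt κ φ0 hX hY)
      · obtain ⟨E, hE, hE'⟩ := key D 0 (by rw [hY, hDv, hDu]; ring)
        refine ⟨E, (hE v hv ho).trans hDv, ?_⟩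
        rintro (_ | l) hl hne hφl
        · exact absurd rfl hne
        · by_cases hlt : thr l
          · simp only [px, if_pos hlt] at hl hφl ⊢
            exact absurd ⟨l, hlt, hl, hφl⟩ hex
          · simp only [px, if_neg hlt] at hl hφl ⊢
            exact absurd hφl (hn l hlt κ φ0 hX hY)
    | some m =>
      by_cases hmt : thr m
      · simp only [px, if_pos hmt] at ho hφo ⊢
        have h1 := hα0 m hmt ho hφo
        obtain ⟨E, hE, hE'⟩ := key (TV.zero φ0) (φ0 ⟨α m hmt, hα m hmt⟩)⁻¹ (by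
          rw [hY]; simp)
        refine ⟨E, ?_, ?_⟩
        · rw [hder E _ hE m hmt ho, hE']
          simp [h1]
        · rintro (_ | l) hl hne hφl
          · exact (hE v hv hl).trans (TV.zero_D _)
          · by_cases hlt : thr l
            · simp only [px, if_pos hlt] at hl hφl ⊢
              exact absurd (by rw [huniq m hmt ho l hlt hl hφo hφl]) hne
            · simp only [px, if_neg hlt] at hl hφl ⊢
              exact absurd hφl (hn l hlt κ φ0 hX hY)
      · simp only [px, if_neg hmt] at ho hφo ⊢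
        exact absurd hφo (hn m hmt κ φ0 hX hY)
  · cases o with
    | none => exact absurd hφo hY
    | some m =>
      have hc : ∀ D : TV φ0, φ0 ⟨v, hv⟩ * ((D.D ⟨u, hu⟩ - w * D.D ⟨v, hv⟩) / φ0 ⟨v, hv⟩) +
          w * D.D ⟨v, hv⟩ = D.D ⟨u, hu⟩ := by
        intro D
        field_simp
        ring
      by_cases hmt : thr m
      · simp only [px, if_pos hmt] at ho hφo ⊢
        obtain ⟨D, hD, hD'⟩ := h κ φ0 m (hx m) (hval0 m hmt ho hφo)
        let D' := TV.comb (φ0 ⟨v, hv⟩) 0 D D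
        have e : ∀ a, D'.D a = φ0 ⟨v, hv⟩ * D.D a := by
          intro a
          change φ0 ⟨v, hv⟩ * D.D a + 0 * D.D a = _
          ring
        obtain ⟨E, hE, hE'⟩ := key D' _ (hc D')
        refine ⟨E, ?_, ?_⟩
        · have h1 := hder' E D' hE m hmt ho hφo
          rw [e, hD] at h1
          exact (mul_left_cancel₀ hY h1).symm
        · rintro (_ | l) hl hne hφl
          · exact absurd hφl hY
          · by_cases hlt : thr l
            · simp only [px, if_pos hlt] at hl hφl ⊢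
              have h1 := hder' E D' hE l hlt hl hφl
              rw [e, hD' l (hx l) (fun h3 => hne (by rw [h3])) (hval0 l hlt hl hφl),
                mul_zero] at h1
              exact (mul_eq_zero.1 h1.symm).resolve_left hY
            · simp only [px, if_neg hlt] at hl hφl ⊢
              rw [hE _ (hx l), e, hD' l (hx l) (fun h3 => hne (by rw [h3])) hφl, mul_zero]
      · simp only [px, if_neg hmt] at ho hφo ⊢
        obtain ⟨D, hD, hD'⟩ := h κ φ0 m (hx m) hφo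
        obtain ⟨E, hE, hE'⟩ := key D _ (hc D)
        refine ⟨E, (hE _ (hx m) _).trans hD, ?_⟩
        rintro (_ | l) hl hne hφl
        · exact absurd hφl hY
        · by_cases hlt : thr l
          · simp only [px, if_pos hlt] at hl hφl ⊢
            have h1 := hder' E D hE l hlt hl hφl
            rw [hD' l (hx l) (fun h3 => hne (by rw [h3])) (hval0 l hlt hl hφl)] at h1
            exact (mul_eq_zero.1 h1.symm).resolve_left hY
          · simp only [px, if_neg hlt] at hl hφl ⊢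
            rw [hE _ (hx l), hD' l (hx l) (fun h3 => hne (by rw [h3])) hφl]

end snc

end Pool.Agent.W558
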